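import Mathlib

/-! Bond percolation on the cubic lattice and Schroedinger operators on the open graph. -/

open MeasureTheory

namespace Pool.Agent.P.MP_d74cc6_pr.H

/-- the graph of open edges: the edge from `x` to `x + e_i` is open iff `ω (x, i) = true` -/
def openGraph {d : ℕ} (ω : (Fin d → ℤ) × Fin d → Bool) : SimpleGraph (Fin d → ℤ) :=
  SimpleGraph.fromRel fun x y => ∃ i : Fin d, y = x + Pi.single i 1 ∧ ω (x, i) = true

/-- Bernoulli bond percolation: every edge is open independently with probability `p` -/
noncomputable def perc (d : ℕ) (p : unitInterval) : Measure ((Fin d → ℤ) × Fin d → Bool) :=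
  Measure.infinitePi fun _ => ProbabilityTheory.bernoulliMeasure true false p

/-- the critical probability: the supremum of the `p` for which the open cluster of the origin
is almost surely finite -/
noncomputable def pc (d : ℕ) : unitInterval :=
  sSup {p | perc d p {ω | {y | (openGraph ω).Reachable 0 y}.Infinite} = 0}

/-- the operator `A + W + f (deg)` of a graph, acting on functions on the vertices -/
noncomputable def ham {V : Type*} (G : SimpleGraph V) (f : ℕ → ℝ) (W : V → ℝ) (g : V → ℝ)
    (x : V) : ℝ :=
  (W x + f (G.neighborSet x).ncard) * g x + ∑ᶠ y ∈ G.neighborSet x, g y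

/-- `μ` is the expected spectral measure at the origin of `A + W + f (deg)` on the open graph,
the potential `W` having law `Q` and being independent of the percolation: the compactly
supported probability measure whose moments are the expected entries `H ^ k (0, 0)` -/
structure IsSpec (d : ℕ) (p : unitInterval) (f : ℕ → ℝ) (Q : Measure ((Fin d → ℤ) → ℝ))
    (μ : Measure ℝ) : Prop where
  prob : IsProbabilityMeasure μ
  supp : ∃ b : ℝ, μ (Set.Icc (-b) b)ᶜ = 0
  mom : ∀ k : ℕ, ∫ t, t ^ k ∂μ =
    ∫ W, ∫ ω, (ham (openGraph ω) f W)^[k] (Pi.single 0 1) 0 ∂(perc d p) ∂Q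

end Pool.Agent.P.MP_d74cc6_pr.H
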