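import Pool.Agent.P.MP_d74cc6_pr.Krylov
import Pool.Agent.P.MP_d74cc6_pr.Green1

/-! Finite volume operators with a diagonal that depends on the site and on its degree:
Green functions, transfer rank, Krylov bound, maximum principle. -/

open Matrix

namespace Pool.Agent.P.MP_d74cc6_pr.H

variable {d : ℕ}

open Classical in
/-- the number of open edges from `x` into `Λ` -/
noncomputable def dg (Λ : Finset (V d)) (O : Sym2 (V d) → Prop) (x : V d) : ℕ :=
  (Λ.filter fun y => (OG O).Adj x y).card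

/-- adjacency matrix plus potential -/
noncomputable def AU (Λ : Finset (V d)) (O : Sym2 (V d) → Prop) (u : V d → ℕ → ℝ) :
    Matrix Λ Λ ℝ := AM Λ O + (diagonal fun x : Λ => u x (dg Λ O x))

/-- diagonal minus adjacency matrix -/
noncomputable def HM (Λ : Finset (V d)) (O : Sym2 (V d) → Prop) (X : V d → ℕ → ℝ) :
    Matrix Λ Λ ℝ := (diagonal fun x : Λ => X x (dg Λ O x)) - AM Λ O

/-- eigenvectors vanishing on `R` -/
noncomputable def eigSp (Λ R : Finset (V d)) (O : Sym2 (V d) → Prop) (u : V d → ℕ → ℝ) (lam : ℝ) :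
    Submodule ℝ (Λ → ℝ) where
  carrier := {g | AU Λ O u *ᵥ g = lam • g ∧ ∀ x : Λ, x.1 ∈ R → g x = 0}
  add_mem' := fun {a b} ha hb =>
    ⟨by rw [mulVec_add, ha.1, hb.1, smul_add], fun x hx => by simp [ha.2 x hx, hb.2 x hx]⟩
  zero_mem' := ⟨by simp, fun _ _ => rfl⟩
  smul_mem' := fun c a ha =>
    ⟨by rw [mulVec_smul, ha.1, smul_comm], fun x hx => by simp [ha.2 x hx]⟩

/-- the Green function -/
noncomputable def Gm (Λ : Finset (V d)) (O : Sym2 (V d) → Prop) (X : V d → ℕ → ℝ) :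
    Matrix Λ Λ ℝ := (HM Λ O X)⁻¹

/-- the column of the Green function at `v`, restricted to `I` -/
noncomputable def gam (Λ I : Finset (V d)) (O : Sym2 (V d) → Prop) (X : V d → ℕ → ℝ) (v : V d) :
    Λ → ℝ :=
  fun x => if x.1 ∈ I then (if h : v ∈ Λ then Gm Λ O X x ⟨v, h⟩ else 0) else 0

/-- the span of the restricted columns at the points of `R` -/
noncomputable def Gam (Λ I R : Finset (V d)) (O : Sym2 (V d) → Prop) (X : V d → ℕ → ℝ) :
    Submodule ℝ (Λ → ℝ) :=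
  Submodule.span ℝ (gam Λ I O X '' (R : Set (V d)))

/-- the rank of the block `I × R` of the Green function -/
noncomputable def rk (Λ I R : Finset (V d)) (O : Sym2 (V d) → Prop) (X : V d → ℕ → ℝ) : ℕ :=
  Module.finrank ℝ (Gam Λ I R O X)

/-- the column at `v` lies in the span of the columns at `R` -/
def dead (Λ I R : Finset (V d)) (O : Sym2 (V d) → Prop) (X : V d → ℕ → ℝ) (v : V d) : Prop :=
  gam Λ I O X v ∈ Gam Λ I R O X

open Classical in
/-- the operator on functions on the lattice -/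
noncomputable def Hop (Λ : Finset (V d)) (O : Sym2 (V d) → Prop) (X : V d → ℕ → ℝ) (g : V d → ℝ)
    (x : V d) : ℝ :=
  X x (dg Λ O x) * g x - ∑ y ∈ Λ, if (OG O).Adj x y then g y else 0

/-- a solution with sources in `W`, vanishing on `I`, equal to the indicator of `q` on `Q` -/
def GP (Λ I W Q : Finset (V d)) (O : Sym2 (V d) → Prop) (X : V d → ℕ → ℝ) (q : V d) : Prop :=
  ∃ g : V d → ℝ, (∀ x ∈ Λ, x ∉ W → Hop Λ O X g x = 0) ∧ (∀ x ∈ I, g x = 0) ∧ g q = 1 ∧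
    ∀ q' ∈ Q, q' ≠ q → g q' = 0

/-- a solution with sources in `I`, vanishing on `W`, not vanishing at `q` -/
def FP (Λ I W : Finset (V d)) (O : Sym2 (V d) → Prop) (X : V d → ℕ → ℝ) (q : V d) : Prop :=
  ∃ f : V d → ℝ, (∀ x ∈ Λ, x ∉ I → Hop Λ O X f x = 0) ∧ (∀ x ∈ W, f x = 0) ∧ f q ≠ 0

/-- a large diagonal whose values at one site are equal or well separated -/
structure Gd (X : V d → ℕ → ℝ) (a : ℝ) : Prop where
  lo : ∀ x k, a ≤ X x k
  hi : ∀ x k, X x k ≤ 2 * a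
  sep : ∀ x k k', X x k = X x k' ∨ 2 ≤ a * |X x k - X x k'|

section Ag

variable {Λ : Finset (V d)} {O O' : Sym2 (V d) → Prop}

theorem ag_dg (h : Agree Λ O O') {x : V d} (hx : x ∈ Λ) : dg Λ O x = dg Λ O' x := by
  classical
  unfold dg
  congr 1
  exact Finset.filter_congr fun y hy => and_congr_right fun _ => h _ hx _ hy

theorem ag_AU (h : Agree Λ O O') (u : V d → ℕ → ℝ) : AU Λ O u = AU Λ O' u := by
  unfold AU
  rw [h.AM_eq]
  congr 2
  exact funext fun x => by rw [ag_dg h x.2]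

theorem ag_HM (h : Agree Λ O O') (X : V d → ℕ → ℝ) : HM Λ O X = HM Λ O' X := by
  unfold HM
  rw [h.AM_eq]
  congr 2
  exact funext fun x => by rw [ag_dg h x.2]

theorem ag_Hop (h : Agree Λ O O') (X : V d → ℕ → ℝ) (g : V d → ℝ) {x : V d} (hx : x ∈ Λ) :
    Hop Λ O X g x = Hop Λ O' X g x := by
  unfold Hop
  rw [ag_dg h hx]
  congr 1
  refine Finset.sum_congr rfl fun y hy => ?_
  have : (OG O).Adj x y ↔ (OG O').Adj x y := and_congr_right fun _ => h _ hx _ hy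
  rw [propext this]

theorem ag_eigSp (h : Agree Λ O O') (R : Finset (V d)) (u : V d → ℕ → ℝ) (lam : ℝ) :
    eigSp Λ R O u lam = eigSp Λ R O' u lam := by
  ext g
  change (_ ∧ _) ↔ (_ ∧ _)
  rw [ag_AU h]

theorem ag_rk (h : Agree Λ O O') (I R : Finset (V d)) (X : V d → ℕ → ℝ) :
    rk Λ I R O X = rk Λ I R O' X := by
  have : gam Λ I O X = gam Λ I O' X := by
    ext v x
    simp only [gam, Gm, ag_HM h]
  unfold rk Gam
  rw [this]

theorem ag_GP (h : Agree Λ O O') {I W Q : Finset (V d)} {X : V d → ℕ → ℝ} {q : V d}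
    (h1 : GP Λ I W Q O X q) : GP Λ I W Q O' X q :=
  let ⟨g, a, b⟩ := h1; ⟨g, fun x hx hW => ag_Hop h X g hx ▸ a x hx hW, b⟩

theorem ag_FP (h : Agree Λ O O') {I W : Finset (V d)} {X : V d → ℕ → ℝ} {q : V d}
    (h1 : FP Λ I W O X q) : FP Λ I W O' X q :=
  let ⟨g, a, b⟩ := h1; ⟨g, fun x hx hW => ag_Hop h X g hx ▸ a x hx hW, b⟩

end Ag

theorem locF_rk (Λ I R : Finset (V d)) (X : V d → ℕ → ℝ) :
    LocF fun ω : Sym2 (V d) → Bool => rk Λ I R (op ω) X :=
  ⟨_, EIn_finite Λ.finite_toSet, fun _ _ h => ag_rk (agree_op h) I R X⟩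

theorem locF_eigSp (Λ R : Finset (V d)) (u : V d → ℕ → ℝ) (lam : ℝ) :
    LocF fun ω : Sym2 (V d) → Bool => eigSp Λ R (op ω) u lam :=
  ⟨_, EIn_finite Λ.finite_toSet, fun _ _ h => ag_eigSp (agree_op h) R u lam⟩

theorem locF_AU (Λ : Finset (V d)) (u : V d → ℕ → ℝ) :
    LocF fun ω : Sym2 (V d) → Bool => AU Λ (op ω) u :=
  ⟨_, EIn_finite Λ.finite_toSet, fun _ _ h => ag_AU (agree_op h) u⟩

theorem AU_symm (Λ : Finset (V d)) (O : Sym2 (V d) → Prop) (u : V d → ℕ → ℝ) :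
    (AU Λ O u).IsSymm := (AM_symm Λ O).add (isSymm_diagonal _)

theorem HM_symm (Λ : Finset (V d)) (O : Sym2 (V d) → Prop) (X : V d → ℕ → ℝ) :
    (HM Λ O X).IsSymm := (isSymm_diagonal _).sub (AM_symm Λ O)

theorem HM_eq (Λ : Finset (V d)) (O : Sym2 (V d) → Prop) (u : V d → ℕ → ℝ) (x₀ : ℝ) :
    HM Λ O (fun x k => x₀ - u x k) = x₀ • (1 : Matrix Λ Λ ℝ) - AU Λ O u := by
  ext x y
  by_cases h : x = y
  · subst h
    simp [HM, AU]
    ring
  · simp [HM, AU, h]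

theorem HM_off (Λ : Finset (V d)) (O : Sym2 (V d) → Prop) (X : V d → ℕ → ℝ) {x y : Λ}
    (h : x ≠ y) : HM Λ O X x y = -AM Λ O x y := by simp [HM, h]

section Green

variable (Λ : Finset (V d)) (O : Sym2 (V d) → Prop) {X : V d → ℕ → ℝ} {a : ℝ}

theorem isUnit_det_H (hX : Gd X a) (hx : 2 * d < a) : IsUnit (HM Λ O X).det := by
  refine Ne.isUnit (det_ne_zero_of_sum_row_lt_diag fun x => ?_)
  have h0 : (0 : ℝ) ≤ 2 * d := by positivity
  have h2 := hX.lo x (dg Λ O x)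
  have h1 : ‖HM Λ O X x x‖ = X x (dg Λ O x) := by
    simp [HM, AM_diag, abs_of_nonneg (h0.trans (hx.le.trans h2))]
  rw [h1]
  refine lt_of_le_of_lt ?_ ((sum_AM_le Λ O x).trans_lt (hx.trans_le h2))
  refine le_trans (le_of_eq (Finset.sum_congr rfl fun y hy => ?_))
    (Finset.sum_le_sum_of_subset_of_nonneg (Finset.erase_subset x _) fun y _ _ => AM_nonneg Λ O x y)
  rw [HM_off Λ O X (Finset.ne_of_mem_erase hy).symm, norm_neg, Real.norm_eq_abs,
    abs_of_nonneg (AM_nonneg Λ O x y)]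

theorem H_mul_Gm (hX : Gd X a) (hx : 2 * d < a) : HM Λ O X * Gm Λ O X = 1 :=
  mul_nonsing_inv _ (isUnit_det_H Λ O hX hx)

theorem Gm_mul_H (hX : Gd X a) (hx : 2 * d < a) : Gm Λ O X * HM Λ O X = 1 :=
  nonsing_inv_mul _ (isUnit_det_H Λ O hX hx)

theorem gr_H_apply (X : V d → ℕ → ℝ) (g : Λ → ℝ) (x : Λ) :
    (HM Λ O X *ᵥ g) x = X x (dg Λ O x) * g x - ∑ y, AM Λ O x y * g y := by
  rw [HM, sub_mulVec, Pi.sub_apply, mulVec_diagonal]
  rfl

theorem gr_Hop_ext (X : V d → ℕ → ℝ) (g : Λ → ℝ) {x : V d} (h : x ∈ Λ) :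
    Hop Λ O X (gr_ext Λ g) x = (HM Λ O X *ᵥ g) ⟨x, h⟩ := by
  classical
  rw [gr_H_apply, Hop, gr_ext_mem g h, ← Finset.sum_coe_sort Λ]
  congr 1
  refine Finset.sum_congr rfl fun y _ => ?_
  simp only [AM, gr_ext_mem g y.2]
  split_ifs <;> simp

theorem gr_Hop_G (hX : Gd X a) (hx : 2 * d < a) (φ : Λ → ℝ) {x : V d} (h : x ∈ Λ) :
    Hop Λ O X (gr_ext Λ (Gm Λ O X *ᵥ φ)) x = φ ⟨x, h⟩ := by
  rw [gr_Hop_ext _ _ _ _ h, mulVec_mulVec, H_mul_Gm Λ O hX hx, one_mulVec]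

theorem gr_Gm_symm (X : V d → ℕ → ℝ) (x y : Λ) : Gm Λ O X x y = Gm Λ O X y x := by
  have h : (Gm Λ O X)ᵀ = Gm Λ O X := by
    rw [Gm, transpose_nonsing_inv, (HM_symm Λ O X).eq]
  exact (congrFun (congrFun h x) y).symm

/-- the equation satisfied by `G φ` -/
theorem gr_eq (hX : Gd X a) (hx : 2 * d < a) (φ : Λ → ℝ) (x : Λ) :
    X x (dg Λ O x) * (Gm Λ O X *ᵥ φ) x = φ x + ∑ y, AM Λ O x y * (Gm Λ O X *ᵥ φ) y := by
  have := gr_H_apply Λ O X (Gm Λ O X *ᵥ φ) x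
  rw [mulVec_mulVec, H_mul_Gm Λ O hX hx, one_mulVec] at this
  linarith

/-- maximum principle, upper form -/
theorem gr_max (hX : Gd X a) (hx : 2 * d < a) (φ : Λ → ℝ) {b : ℝ} (hb : 0 ≤ b)
    (hφ : ∀ x, φ x ≤ b) (x : Λ) : (Gm Λ O X *ᵥ φ) x ≤ b / (a - 2 * d) := by
  set u := Gm Λ O X *ᵥ φ with hu
  obtain ⟨m, -, hm⟩ := Finset.exists_max_image Finset.univ u ⟨x, Finset.mem_univ _⟩
  refine (hm x (Finset.mem_univ _)).trans ?_
  have hpos : 0 < a - 2 * d := by linarith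
  by_cases h0 : u m ≤ 0
  · exact h0.trans (div_nonneg hb hpos.le)
  push Not at h0
  have h1 := gr_eq Λ O hX hx φ m
  rw [← hu] at h1
  have h2 : ∑ y, AM Λ O m y * u y ≤ ∑ y, AM Λ O m y * u m :=
    Finset.sum_le_sum fun y _ =>
      mul_le_mul_of_nonneg_left (hm y (Finset.mem_univ _)) (AM_nonneg Λ O m y)
  rw [← Finset.sum_mul] at h2
  have h3 := mul_le_mul_of_nonneg_right (sum_AM_le Λ O m) h0.le
  have h4 := mul_le_mul_of_nonneg_right (hX.lo m (dg Λ O m)) h0.le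
  rw [le_div_iff₀ hpos]
  have := hφ m
  nlinarith

theorem gr_col (X : V d → ℕ → ℝ) (x y : Λ) :
    (Gm Λ O X *ᵥ Pi.single y 1) x = Gm Λ O X x y := by
  simp

theorem gr_Gm_nonneg (hX : Gd X a) (hx : 2 * d < a) (x y : Λ) : 0 ≤ Gm Λ O X x y := by
  have := gr_max Λ O hX hx (-Pi.single y 1) le_rfl (fun z => by
    rw [Pi.neg_apply, Pi.single_apply]; split_ifs <;> norm_num) x
  rw [mulVec_neg, Pi.neg_apply, gr_col] at this
  simpa using this

/-- lower bound along open walks -/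
theorem gr_lower (hX : Gd X a) (hx : 2 * d < a) (h1a : 1 ≤ a) {n : ℕ} {x y : V d}
    (h : Wk O Λ n x y) :
    (2 * a)⁻¹ ^ (n + 1) ≤ Gm Λ O X ⟨x, h.mem_left⟩ ⟨y, h.mem_right⟩ := by
  have hm : 0 < 2 * a := by linarith
  have hr0 : 0 < (2 * a)⁻¹ := inv_pos.2 hm
  have hr1 : (2 * a)⁻¹ ≤ 1 := inv_le_one_of_one_le₀ (by linarith)
  have key : ∀ (p q : Λ) (c : ℝ), c ≤ (Pi.single q 1 : Λ → ℝ) p + ∑ z, AM Λ O p z * Gm Λ O X z q →
      (2 * a)⁻¹ * c ≤ Gm Λ O X p q := fun p q c hc => by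
    have h1 := gr_eq Λ O hX hx (Pi.single q 1) p
    simp only [gr_col] at h1
    have h2 := mul_le_mul_of_nonneg_right (hX.hi p (dg Λ O p)) (gr_Gm_nonneg Λ O hX hx p q)
    rw [inv_mul_le_iff₀ hm]
    linarith
  induction h with
  | @nil n x h =>
    have h2 : 0 ≤ ∑ z, AM Λ O ⟨x, h⟩ z * Gm Λ O X z ⟨x, h⟩ :=
      Finset.sum_nonneg fun z _ => mul_nonneg (AM_nonneg _ _ _ _) (gr_Gm_nonneg _ _ hX hx _ _)
    rw [pow_succ']
    refine key _ _ _ ?_
    rw [Pi.single_eq_same]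
    have := pow_le_one₀ (n := n) hr0.le hr1
    linarith
  | @cons n x y z h1 h2 h3 h4 ih =>
    have h6 : AM Λ O ⟨x, h1⟩ ⟨y, h4.mem_left⟩ = 1 := by
      have : (OG O).Adj x y := ⟨h2, h3⟩
      simp [AM, this]
    have h7 := Finset.single_le_sum
      (f := fun w => AM Λ O ⟨x, h1⟩ w * Gm Λ O X w ⟨z, h4.mem_right⟩)
      (fun w _ => mul_nonneg (AM_nonneg _ _ _ _) (gr_Gm_nonneg _ _ hX hx _ _))
      (Finset.mem_univ ⟨y, h4.mem_left⟩)
    simp only [h6, one_mul] at h7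
    have h8 : (0 : ℝ) ≤ (Pi.single ⟨z, h4.mem_right⟩ 1 : Λ → ℝ) ⟨x, h1⟩ := by
      rw [Pi.single_apply]; split_ifs <;> norm_num
    rw [pow_succ' _ (n + 1)]
    exact key _ _ _ (by linarith)

/-- decay away from the sources -/
theorem gr_decay (hX : Gd X a) (hx : 2 * d < a) (φ : Λ → ℝ) (hφ1 : ∀ x, φ x ≤ 1) (n : ℕ) (x : Λ)
    (hsep : ∀ w : Λ, φ w ≠ 0 → ∃ i, (n : ℤ) ≤ |x.1 i - w.1 i|) :
    (Gm Λ O X *ᵥ φ) x ≤ (2 * d / a) ^ n * (1 / (a - 2 * d)) := by
  have h0 : (0 : ℝ) ≤ 2 * d := by positivity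
  have hx0 : 0 < a := by linarith
  have hpos : 0 < a - 2 * d := by linarith
  induction n generalizing x with
  | zero => simpa using gr_max Λ O hX hx φ zero_le_one hφ1 x
  | succ n ih =>
    have h1 := gr_eq Λ O hX hx φ x
    have h2 : φ x = 0 := by
      by_contra h
      obtain ⟨i, hi⟩ := hsep x h
      simp only [sub_self, abs_zero] at hi
      omega
    set B := (2 * d / a) ^ n * (1 / (a - 2 * d)) with hB
    have hB0 : 0 ≤ B := by positivity
    have h3 : ∑ y, AM Λ O x y * (Gm Λ O X *ᵥ φ) y ≤ ∑ y, AM Λ O x y * B := by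
      refine Finset.sum_le_sum fun y _ => ?_
      by_cases h : AM Λ O x y = 0
      · simp [h]
      refine mul_le_mul_of_nonneg_left (ih y fun w hw => ?_) (AM_nonneg _ _ _ _)
      obtain ⟨i, hi⟩ := hsep w hw
      refine ⟨i, ?_⟩
      have h4 := abs_sub_le_one_of_adj (AM_ne_zero h) i
      have h5 := abs_sub_le (x.1 i) (y.1 i) (w.1 i)
      rw [abs_sub_comm (x.1 i) (y.1 i)] at h5
      push_cast at hi
      omega
    rw [← Finset.sum_mul] at h3
    have h4 := mul_le_mul_of_nonneg_right (sum_AM_le Λ O x) hB0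
    have h5 : a * ((2 * d / a) ^ (n + 1) * (1 / (a - 2 * d))) = 2 * d * B := by
      rw [hB, pow_succ]; field_simp
    by_cases h6 : (Gm Λ O X *ᵥ φ) x ≤ 0
    · exact h6.trans (by positivity)
    have h7 := mul_le_mul_of_nonneg_right (hX.lo x (dg Λ O x)) (not_le.1 h6).le
    refine le_of_mul_le_mul_left ?_ hx0
    linarith

end Green

theorem dead_of_mem {Λ I R : Finset (V d)} {O : Sym2 (V d) → Prop} {X : V d → ℕ → ℝ} {w : V d}
    (hw : w ∈ R) : dead Λ I R O X w := Submodule.subset_span ⟨w, hw, rfl⟩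

theorem kr_pow_ne {Λ : Finset (V d)} {O : Sym2 (V d) → Prop} {X : V d → ℕ → ℝ} (j : ℕ) {x w : Λ}
    (h : (HM Λ O X ^ j) x w ≠ 0) (i : Fin d) : |x.1 i - w.1 i| ≤ j := by
  induction j generalizing x with
  | zero =>
    have : x = w := by
      by_contra h1
      exact h (by simp [Matrix.one_apply_ne h1])
    simp [this]
  | succ j ih =>
    rw [pow_succ', mul_apply] at h
    obtain ⟨y, -, hy⟩ := Finset.exists_ne_zero_of_sum_ne_zero h
    have h1 := ih (right_ne_zero_of_mul hy)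
    have h2 := left_ne_zero_of_mul hy
    have h3 : |y.1 i - x.1 i| ≤ 1 := by
      by_cases hxy : x = y
      · simp [hxy]
      · refine abs_sub_le_one_of_adj (AM_ne_zero (O := O) fun h4 => h2 ?_) i
        rw [HM_off Λ O X hxy, h4, neg_zero]
    have h4 := abs_sub_le (x.1 i) (y.1 i) (w.1 i)
    rw [abs_sub_comm (x.1 i) (y.1 i)] at h4
    push_cast
    omega

theorem krylov {Λ I R : Finset (V d)} {O : Sym2 (V d) → Prop} {u : V d → ℕ → ℝ} {x₀ a : ℝ}
    (hX : Gd (fun x k => x₀ - u x k) a) (hx : 2 * d < a) {ℓ : ℕ}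
    (hsep : ∀ v ∈ I, ∀ w ∈ R, ∃ i, (ℓ : ℤ) ≤ |v i - w i|) (S₀ : Finset ℝ) :
    ∑ lam ∈ S₀, Module.finrank ℝ (eigSp Λ R O u lam) +
      ℓ * rk Λ I R O (fun x k => x₀ - u x k) ≤ Λ.card := by
  classical
  set X : V d → ℕ → ℝ := fun x k => x₀ - u x k with hXe
  have h1 := kr_low (Gm_mul_H Λ O hX hx) (P := fun w => w.1 ∈ R) (Q := fun x => x.1 ∈ I) (ℓ := ℓ)
    (Γ := Gam Λ I R O X)
    (by
      intro j hj x w h1 h2
      by_contra h3
      obtain ⟨i, hi⟩ := hsep _ h1 _ h2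
      have := kr_pow_ne j h3 i
      omega)
    (by
      refine Submodule.span_le.2 ?_
      rintro _ ⟨w, hw, rfl⟩
      by_cases h : w ∈ Λ
      · refine Submodule.subset_span ⟨⟨w, h⟩, hw, ?_⟩
        ext x
        simp [gam, h]
      · have : gam Λ I O X w = 0 := by
          ext x
          simp [gam, h]
        rw [this]
        exact Submodule.zero_mem _)
  obtain ⟨W, hW, -⟩ := kr_sum (E := eigSp Λ R O u) (K := krK (HM Λ O X) (fun w => w.1 ∈ R) ℓ 0)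
    (by
      intro a b hab g hg f hf
      have h2 : g ⬝ᵥ (AU Λ O u *ᵥ f) = a * (g ⬝ᵥ f) := by
        rw [dotProduct_mulVec, ← mulVec_transpose, (AU_symm Λ O u).eq, hg.1, smul_dotProduct,
          smul_eq_mul]
      rw [hf.1, dotProduct_smul, smul_eq_mul] at h2
      exact (mul_eq_mul_right_iff.1 h2).resolve_left hab.symm)
    (by
      intro a g hg f hf
      refine kr_orth (HM_symm Λ O X) (c := x₀ - a) ?_ hg.2 hf
      rw [hXe, HM_eq, sub_mulVec, hg.1, smul_mulVec, one_mulVec, sub_smul]) S₀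
  have h2 := W.finrank_le
  rw [Module.finrank_fintype_fun_eq_card, Fintype.card_coe, hW] at h2
  unfold rk
  omega

end Pool.Agent.P.MP_d74cc6_pr.H
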