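import Pool.Agent.P.MP_d74cc6_pr.Green
import Pool.Agent.P.MP_d74cc6_pr.H.Op

/-! The two kinds of solutions and the consistency lemma for a variable diagonal. -/

open Matrix

namespace Pool.Agent.P.MP_d74cc6_pr.H

variable {d : ℕ}

theorem gr_gam_off {Λ I : Finset (V d)} {O : Sym2 (V d) → Prop} {X : V d → ℕ → ℝ} (v : V d) {x : Λ}
    (h : x.1 ∉ I) : gam Λ I O X v x = 0 := by simp [gam, h]

theorem gr_gam_on {Λ I : Finset (V d)} {O : Sym2 (V d) → Prop} {X : V d → ℕ → ℝ} {v : V d} (hv : v ∈ Λ)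
    {x : Λ} (h : x.1 ∈ I) : gam Λ I O X v x = Gm Λ O X x ⟨v, hv⟩ := by simp [gam, h, hv]

theorem gr_FP {Λ I R W : Finset (V d)} {O : Sym2 (V d) → Prop} {X : V d → ℕ → ℝ} {a : ℝ} (hX : Gd X a)
    (hx : 2 * d < a)
    {q : V d} (h : ¬ dead Λ I R O X q) (hW : ∀ w ∈ W, dead Λ I R O X w) :
    FP Λ I W O X q := by
  classical
  obtain ⟨L, hL, hL'⟩ := Submodule.exists_dual_map_eq_bot_of_notMem h inferInstance
  have hL0 : ∀ g ∈ Gam Λ I R O X, L g = 0 := fun g hg => by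
    have : L g ∈ (Gam Λ I R O X).map L := Submodule.mem_map_of_mem hg
    rwa [hL', Submodule.mem_bot] at this
  let φ : Λ → ℝ := fun x => if x.1 ∈ I then L (Pi.single x 1) else 0
  have key : ∀ v, gr_ext Λ (Gm Λ O X *ᵥ φ) v = L (gam Λ I O X v) := by
    intro v
    by_cases hv : v ∈ Λ
    · rw [gr_ext_mem _ hv, LinearMap.pi_apply_eq_sum_univ L]
      simp only [mulVec, dotProduct]
      refine Finset.sum_congr rfl fun x _ => ?_
      have e : (fun j => if x = j then (1 : ℝ) else 0) = Pi.single x 1 := by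
        ext j; rw [Pi.single_apply]; simp only [eq_comm]
      by_cases hI : x.1 ∈ I
      · rw [gr_gam_on hv hI, e, gr_Gm_symm]
        simp [φ, hI]
      · rw [gr_gam_off v hI]
        simp [φ, hI]
    · have : gam Λ I O X v = 0 := by ext x; simp [gam, hv]
      rw [gr_ext_not _ hv, this, map_zero]
  refine ⟨gr_ext Λ (Gm Λ O X *ᵥ φ), fun x hx' hI => ?_, fun w hw => ?_, ?_⟩
  · rw [gr_Hop_G Λ O hX hx φ hx']
    simp [φ, hI]
  · rw [key]; exact hL0 _ (hW w hw)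
  · rw [key]; exact hL

theorem gr_numeric {a : ℝ} {D : ℕ} (h1a : 1 ≤ a) (hx : 2 * d + (4 * d) ^ (D + 1) < a) :
    (2 * d / a) ^ (D + 1) * (1 / (a - 2 * d)) < (2 * a)⁻¹ ^ (D + 1) := by
  have h0 : (0 : ℝ) ≤ 2 * d := by positivity
  have h1 : (0 : ℝ) ≤ (4 * d) ^ (D + 1) := by positivity
  have hpos : 0 < a - 2 * d := by linarith
  have hx0 : 0 < a := by linarith
  have e : 2 * d / a = (4 * d) * (2 * a)⁻¹ := by field_simp; ring
  rw [e, mul_pow, mul_right_comm]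
  refine mul_lt_of_lt_one_left (by positivity) ?_
  rw [mul_one_div, div_lt_one hpos]
  linarith

theorem gr_GP {Λ I R : Finset (V d)} {O : Sym2 (V d) → Prop} {X : V d → ℕ → ℝ} {a : ℝ} {D : ℕ}
    (hX : Gd X a) (h1a : 1 ≤ a) (hx : 2 * d + (4 * d) ^ (D + 1) < a) {τ : Type*} (T : Finset τ) (q w : τ → V d)
    (hwalk : ∀ t ∈ T, Wk O Λ D (q t) (w t))
    (hsep : ∀ t ∈ T, ∀ t' ∈ T, t ≠ t' → ∃ i, (D : ℤ) < |q t i - w t' i|)
    (hdead : ∀ t ∈ T, dead Λ I R O X (w t)) :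
    ∃ Q ⊆ T, T.card ≤ Q.card + rk Λ I R O X ∧
      ∀ t ∈ Q, GP Λ I (T.image w) (Q.image q) O X (q t) := by
  classical
  have h1 : (0 : ℝ) ≤ (4 * d) ^ (D + 1) := by positivity
  have hx' : 2 * d < a := by linarith
  let qq : T → Λ := fun t => ⟨q t, (hwalk t t.2).mem_left⟩
  let ww : T → Λ := fun t => ⟨w t, (hwalk t t.2).mem_right⟩
  have hww : Function.Injective ww := fun t t' h => by
    by_contra hne
    obtain ⟨i, hi⟩ := hsep t t.2 t' t'.2 fun e => hne (Subtype.ext e)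
    have h2 := (hwalk t t.2).abs_sub_le i
    have h3 : w t = w t' := congrArg Subtype.val h
    rw [← h3, abs_sub_comm] at hi
    omega
  -- the matrix of the values
  let K : Matrix T T ℝ := fun t t' => Gm Λ O X (qq t) (ww t')
  have hK : K.det ≠ 0 := by
    refine det_ne_zero_of_sum_row_lt_diag fun t => ?_
    let φ : Λ → ℝ := ∑ t' ∈ Finset.univ.erase t, Pi.single (ww t') 1
    have hφ : ∀ x, φ x = if ∃ t' ∈ Finset.univ.erase t, ww t' = x then 1 else 0 := by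
      intro x
      simp only [φ, Finset.sum_apply]
      split_ifs with h
      · obtain ⟨t', ht', rfl⟩ := h
        rw [Finset.sum_eq_single_of_mem t' ht']
        · simp
        · intro b _ hb
          rw [Pi.single_eq_of_ne (hww.ne hb.symm)]
      · refine Finset.sum_eq_zero fun b hb => ?_
        rw [Pi.single_eq_of_ne fun e => h ⟨b, hb, e.symm⟩]
    have h2 := gr_decay Λ O hX hx' φ (fun x => by rw [hφ]; split_ifs <;> norm_num) (D + 1) (qq t)
      (fun x hx0 => by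
        rw [hφ] at hx0
        split_ifs at hx0 with h
        · obtain ⟨t', ht', rfl⟩ := h
          obtain ⟨i, hi⟩ := hsep t t.2 t' t'.2
            fun e => (Finset.ne_of_mem_erase ht') (Subtype.ext e.symm)
          exact ⟨i, by push_cast; exact hi⟩
        · exact absurd rfl hx0)
    have h3 : (Gm Λ O X *ᵥ φ) (qq t) = ∑ t' ∈ Finset.univ.erase t, ‖K t t'‖ := by
      simp only [φ, mulVec_sum, Finset.sum_apply, gr_col]
      refine Finset.sum_congr rfl fun t' _ => ?_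
      rw [Real.norm_eq_abs, abs_of_nonneg (gr_Gm_nonneg Λ O hX hx' _ _)]
    have h4 := gr_lower Λ O hX hx' h1a (hwalk t t.2)
    rw [← h3, Real.norm_eq_abs, abs_of_nonneg (gr_Gm_nonneg Λ O hX hx' _ _)]
    exact (h2.trans_lt (gr_numeric h1a hx)).trans_le h4
  have hKinj : Function.Injective K.mulVecLin := by
    rw [injective_iff_map_eq_zero]
    exact fun c hc => eq_zero_of_mulVec_eq_zero hK hc
  let Φ : (T → ℝ) →ₗ[ℝ] (Λ → ℝ) := Fintype.linearCombination ℝ fun t : T => gam Λ I O X (w t)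
  have hΦ : LinearMap.range Φ ≤ Gam Λ I R O X := by
    rw [Fintype.range_linearCombination, Submodule.span_le]
    rintro _ ⟨t, rfl⟩
    exact hdead t t.2
  have hdim := LinearMap.finrank_range_add_finrank_ker Φ
  have hle := Submodule.finrank_mono hΦ
  obtain ⟨Q, hQ, hQ'⟩ := gr_extract ((LinearMap.ker Φ).map K.mulVecLin)
  rw [← (Submodule.equivMapOfInjective _ hKinj (LinearMap.ker Φ)).finrank_eq] at hQ
  refine ⟨Q.map (Function.Embedding.subtype _), fun t ht => ?_, ?_, fun t ht => ?_⟩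
  · obtain ⟨s, -, rfl⟩ := Finset.mem_map.1 ht
    exact s.2
  · rw [Finset.card_map]
    simp only [Module.finrank_fintype_fun_eq_card, Fintype.card_coe] at hdim
    unfold rk
    omega
  · obtain ⟨s, hs, rfl⟩ := Finset.mem_map.1 ht
    obtain ⟨_, ⟨c, hc, rfl⟩, hn⟩ := hQ' s hs
    have hc0 : Φ c = 0 := hc
    let φ : Λ → ℝ := ∑ t', c t' • Pi.single (ww t') 1
    have hG : ∀ x, (Gm Λ O X *ᵥ φ) x = ∑ t', c t' * Gm Λ O X x (ww t') := fun x => by
      simp only [φ, mulVec_sum, Finset.sum_apply, mulVec_smul, Pi.smul_apply, gr_col, smul_eq_mul]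
    have hq : ∀ t' : T, gr_ext Λ (Gm Λ O X *ᵥ φ) (q t') = K.mulVecLin c t' := fun t' => by
      rw [gr_ext_mem _ (hwalk t' t'.2).mem_left, hG]
      simp only [mulVecLin_apply, mulVec, dotProduct, K, mul_comm]
      rfl
    refine ⟨gr_ext Λ (Gm Λ O X *ᵥ φ), fun x hxΛ hxW => ?_, fun x hxI => ?_, ?_, ?_⟩
    · rw [gr_Hop_G Λ O hX hx' φ hxΛ]
      simp only [φ, Finset.sum_apply]
      refine Finset.sum_eq_zero fun t' _ => ?_
      rw [Pi.smul_apply, Pi.single_eq_of_ne, smul_zero]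
      intro e
      exact hxW (Finset.mem_image.2 ⟨t', t'.2, (congrArg Subtype.val e).symm⟩)
    · by_cases hxΛ : x ∈ Λ
      · rw [gr_ext_mem _ hxΛ, hG]
        have := congrFun hc0 ⟨x, hxΛ⟩
        simp only [Φ, Fintype.linearCombination_apply, Finset.sum_apply, Pi.smul_apply,
          smul_eq_mul, Pi.zero_apply] at this
        rw [← this]
        refine Finset.sum_congr rfl fun t' _ => ?_
        rw [gr_gam_on (hwalk t' t'.2).mem_right hxI]
      · exact gr_ext_not _ hxΛ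
    · have := hn s hs
      rw [if_pos rfl] at this
      exact (hq s).trans this
    · intro q' hq' hne
      obtain ⟨t', ht', rfl⟩ := Finset.mem_image.1 hq'
      obtain ⟨s', hs', rfl⟩ := Finset.mem_map.1 ht'
      have := hn s' hs'
      rw [if_neg fun e => hne (by rw [e])] at this
      exact (hq s').trans this

/-- continued fraction of a pendant path -/
noncomputable def tau (Y : ℕ → ℕ → ℝ) : ℕ → ℕ → ℝ
  | 0, _ => 0
  | k + 1, i => 1 / (Y (i + 1) (if k = 0 then 1 else 2) - tau Y k (i + 1))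

theorem tau_bd {Y : ℕ → ℕ → ℝ} {a : ℝ} (ha : 2 < a) (hY : ∀ i n, a ≤ Y i n) (k i : ℕ) :
    0 ≤ tau Y k i ∧ tau Y k i < 1 ∧ a * tau Y k i < 2 ∧ (k ≠ 0 → 0 < tau Y k i) := by
  induction k generalizing i with
  | zero => simp [tau]
  | succ k ih =>
    obtain ⟨h1, h2, -, -⟩ := ih (i + 1)
    have h3 := hY (i + 1) (if k = 0 then 1 else 2)
    have h4 : 0 < Y (i + 1) (if k = 0 then 1 else 2) - tau Y k (i + 1) := by linarith
    have h5 : 0 < tau Y (k + 1) i := by rw [tau]; positivity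
    refine ⟨h5.le, ?_, ?_, fun _ => h5⟩
    · rw [tau, div_lt_one h4]; linarith
    · rw [tau, mul_one_div, div_lt_iff₀ h4]; linarith

theorem tau_eq {Y : ℕ → ℕ → ℝ} {a : ℝ} (ha : 2 < a) (hY : ∀ i n, a ≤ Y i n) {A B : ℝ}
    (hs : A = B ∨ 2 ≤ a * |A - B|) {k k' i : ℕ} (h : A - tau Y k i = B - tau Y k' i) :
    tau Y k i = tau Y k' i := by
  rcases hs with rfl | hs
  · linarith
  · exfalso
    obtain ⟨h1, -, h2, -⟩ := tau_bd ha hY k i
    obtain ⟨h3, -, h4, -⟩ := tau_bd ha hY k' i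
    have h5 : A - B = tau Y k i - tau Y k' i := by linarith
    rw [h5] at hs
    have h6 := mul_nonneg (by linarith : 0 ≤ a) h1
    have h7 := mul_nonneg (by linarith : 0 ≤ a) h3
    rcases abs_cases (tau Y k i - tau Y k' i) with ⟨e, -⟩ | ⟨e, -⟩ <;> rw [e] at hs <;> nlinarith

theorem tau_inj {Y : ℕ → ℕ → ℝ} {a : ℝ} (ha : 2 < a) (hY : ∀ i n, a ≤ Y i n)
    (hs : ∀ i n n', Y i n = Y i n' ∨ 2 ≤ a * |Y i n - Y i n'|) {k k' i : ℕ}
    (h : tau Y k i = tau Y k' i) : k = k' := by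
  induction k generalizing k' i with
  | zero =>
    by_contra hk
    have := (tau_bd ha hY k' i).2.2.2 (Ne.symm hk)
    rw [← h, tau] at this
    exact lt_irrefl _ this
  | succ k ih =>
    cases k' with
    | zero =>
      have := (tau_bd ha hY (k + 1) i).2.2.2 (by omega)
      rw [h, tau] at this
      exact absurd this (lt_irrefl _)
    | succ k' =>
      rw [tau, tau, one_div, one_div, _root_.inv_inj] at h
      rw [ih (tau_eq ha hY (hs _ _ _) h)]

open Classical in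
theorem gr_zsum {Λ : Finset (V d)} {O : Sym2 (V d) → Prop} {l : Fin d} {M : ℕ} {v : V d} {t : ℕ}
    (ht : t < M) (hO : Zone O l M v t) (hΛ : ∀ i ≤ M, zv l v i ∈ Λ) {i k : ℕ}
    (hi : i + (k + 1) = t) (g : V d → ℝ) :
    (∑ y ∈ Λ, if (OG O).Adj (zv l v (i + 1)) y then g y else 0)
      = g (zv l v i) + if k ≠ 0 then g (zv l v (i + 2)) else 0 := by
  have hne : zv l v i ≠ zv l v (i + 2) := fun e => by have := gr_zv_inj e; omega
  have h4 : ∀ y ∈ Λ, (if (OG O).Adj (zv l v (i + 1)) y then g y else 0)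
      = (if y = zv l v i then g y else 0)
        + if y = zv l v (i + 2) then (if k ≠ 0 then g y else 0) else 0 := by
    intro y _
    rw [gr_zone_adj hO (by omega)]
    by_cases e1 : y = zv l v i
    · have e2 : y ≠ zv l v (i + 2) := e1 ▸ hne
      rw [if_pos (Or.inl ⟨e1, by omega⟩), if_pos e1, if_neg e2, add_zero]
    · by_cases e2 : y = zv l v (i + 2)
      · by_cases hk : k = 0
        · rw [if_neg, if_neg e1, if_pos e2, if_neg (by simpa using hk), add_zero]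
          rintro (⟨h, -⟩ | ⟨-, -, h⟩)
          · exact e1 h
          · omega
        · rw [if_pos (Or.inr ⟨e2, by omega, by omega⟩), if_neg e1, if_pos e2, if_pos hk,
            zero_add]
      · rw [if_neg, if_neg e1, if_neg e2, add_zero]
        rintro (⟨h, -⟩ | ⟨h, -⟩)
        · exact e1 h
        · exact e2 h
  rw [Finset.sum_congr rfl h4, Finset.sum_add_distrib, Finset.sum_ite_eq',
    if_pos (hΛ i (by omega)), Finset.sum_ite_eq']
  by_cases hk : k = 0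
  · simp [hk]
  · rw [if_pos (hΛ (i + 2) (by omega))]

open Classical in
theorem dg_cast (Λ : Finset (V d)) (O : Sym2 (V d) → Prop) (x : V d) :
    (dg Λ O x : ℝ) = ∑ y ∈ Λ, if (OG O).Adj x y then (1 : ℝ) else 0 := by
  simp [dg]

theorem gr_pendant {Λ : Finset (V d)} {O : Sym2 (V d) → Prop} {X : V d → ℕ → ℝ} {a : ℝ}
    (hX : Gd X a) (hx : 2 < a)
    {l : Fin d} {M : ℕ} {v : V d} {t : ℕ} (ht : t < M) (hO : Zone O l M v t)
    (hΛ : ∀ i ≤ M, zv l v i ∈ Λ) {g : V d → ℝ}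
    (hg : ∀ i, 1 ≤ i → i ≤ M → Hop Λ O X g (zv l v i) = 0) :
    (if t ≠ 0 then g (zv l v 1) else 0) = tau (fun i => X (zv l v i)) t 0 * g v := by
  classical
  have key : ∀ k i, i + k = t → (if k ≠ 0 then g (zv l v (i + 1)) else 0)
      = tau (fun i => X (zv l v i)) k i * g (zv l v i) := by
    intro k
    induction k with
    | zero => intro i _; simp [tau]
    | succ k ih =>
      intro i hi
      have h1 := ih (i + 1) (by omega)
      have h2 := hg (i + 1) (by omega) (by omega)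
      have h3 := gr_zsum ht hO hΛ hi g
      have h4 : dg Λ O (zv l v (i + 1)) = if k = 0 then 1 else 2 := by
        have := (dg_cast Λ O _).trans (gr_zsum ht hO hΛ hi fun _ => 1)
        by_cases hk : k = 0
        · rw [if_pos hk]
          rw [if_neg (by simpa using hk)] at this
          exact_mod_cast this
        · rw [if_neg hk]
          rw [if_pos hk] at this
          exact_mod_cast this
      rw [Hop, h4] at h2
      have h5 : X (zv l v (i + 1)) (if k = 0 then 1 else 2) * g (zv l v (i + 1))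
          = g (zv l v i) + tau (fun i => X (zv l v i)) k (i + 1) * g (zv l v (i + 1)) := by
        rw [← h1, ← h3]
        convert sub_eq_zero.1 h2
      have h6 : X (zv l v (i + 1)) (if k = 0 then 1 else 2)
          - tau (fun i => X (zv l v i)) k (i + 1) ≠ 0 := by
        have h7 := (tau_bd (Y := fun i => X (zv l v i)) hx (fun i n => hX.lo _ n) k (i + 1)).2.1
        have h8 := hX.lo (zv l v (i + 1)) (if k = 0 then 1 else 2)
        linarith
      rw [if_pos (by omega), tau]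
      field_simp
      linarith
  simpa [gr_zv_zero] using key t 0 (by omega)

theorem gr_out {Q Z : Finset (V d)} {O : Sym2 (V d) → Prop} {l : Fin d} {M : ℕ} {θ : V d → ℕ}
    (hZ : ∀ y, y ∈ Z ↔ ∃ v ∈ Q, ∃ i, 1 ≤ i ∧ i ≤ M ∧ y = zv l v i)
    (hO : ∀ v ∈ Q, Zone O l M v (θ v)) {x : V d} (hxZ : x ∉ Z) :
    ∀ y ∈ Z, (OG O).Adj x y → x ∈ Q ∧ θ x ≠ 0 ∧ y = zv l x 1 := by
  intro y hy h
  obtain ⟨v, hv, i, h1, h2, rfl⟩ := (hZ y).1 hy
  obtain ⟨i, rfl⟩ : ∃ k, i = k + 1 := ⟨i - 1, by omega⟩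
  rcases (gr_zone_adj (hO v hv) h2 x).1 h.symm with ⟨rfl, h3⟩ | ⟨rfl, h3, -⟩
  · rcases Nat.eq_zero_or_pos i with rfl | hi
    · rw [gr_zv_zero]
      exact ⟨hv, h3.symm, rfl⟩
    · exact absurd ((hZ _).2 ⟨v, hv, i, hi, by omega, rfl⟩) hxZ
  · exact absurd ((hZ _).2 ⟨v, hv, i + 2, by omega, by omega, rfl⟩) hxZ

open Classical in
/-- the operator at a point outside the zones -/
theorem gr_split {Λ Q Z : Finset (V d)} {O : Sym2 (V d) → Prop} {X : V d → ℕ → ℝ} {a : ℝ}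
    (hX : Gd X a) (hx : 2 < a)
    {l : Fin d} {M : ℕ} {θ : V d → ℕ} (hθ : ∀ v ∈ Q, θ v < M)
    (hΛ : ∀ v ∈ Q, ∀ i ≤ M, zv l v i ∈ Λ)
    (hZ : ∀ y, y ∈ Z ↔ ∃ v ∈ Q, ∃ i, 1 ≤ i ∧ i ≤ M ∧ y = zv l v i)
    (hO : ∀ v ∈ Q, Zone O l M v (θ v)) {g : V d → ℝ}
    (hg : ∀ y ∈ Z, Hop Λ O X g y = 0) {x : V d} (hxZ : x ∉ Z) :
    Hop Λ O X g x = X x (dg Λ O x) * g x - (∑ y ∈ Λ \ Z, if (OG O).Adj x y then g y else 0)
      - if x ∈ Q then tau (fun i => X (zv l x i)) (θ x) 0 * g x else 0 := by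
  have hsub : Z ⊆ Λ := fun y hy => by
    obtain ⟨v, hv, i, -, h2, rfl⟩ := (hZ y).1 hy
    exact hΛ v hv i h2
  rw [Hop, ← Finset.sum_sdiff hsub, sub_sub]
  congr 2
  have h1 := gr_out hZ hO hxZ
  split_ifs with hxQ
  · have hM := hθ x hxQ
    rw [← gr_pendant hX hx hM (hO x hxQ) (hΛ x hxQ)
      fun i h1 h2 => hg _ ((hZ _).2 ⟨x, hxQ, i, h1, h2, rfl⟩)]
    have hz : zv l x 1 ∈ Z := (hZ _).2 ⟨x, hxQ, 1, le_rfl, by omega, rfl⟩
    rw [Finset.sum_eq_single_of_mem _ hz fun y hy hne => if_neg fun h => hne (h1 y hy h).2.2]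
    refine if_congr ⟨fun h => (h1 _ hz h).2.1, fun h => ?_⟩ rfl rfl
    exact ((gr_zone_adj (hO x hxQ) (i := 0) (by omega) x).2
      (Or.inl ⟨(gr_zv_zero l x).symm, h.symm⟩)).symm
  · exact Finset.sum_eq_zero fun y hy => if_neg fun h => hxQ (h1 y hy h).1

theorem gr_consistent {Λ I W Q : Finset (V d)} {O O' : Sym2 (V d) → Prop} {X : V d → ℕ → ℝ}
    {a : ℝ} (hX : Gd X a) (hx : 2 < a)
    {l : Fin d} {M : ℕ} {θ θ' : V d → ℕ} (hθ : ∀ v ∈ Q, θ v < M) (hθ' : ∀ v ∈ Q, θ' v < M)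
    (hΛ : ∀ v ∈ Q, ∀ i ≤ M, zv l v i ∈ Λ)
    (hinj : ∀ v ∈ Q, ∀ v' ∈ Q, ∀ i ≤ M, ∀ i' ≤ M, zv l v i = zv l v' i' → v = v')
    (hIW : ∀ v ∈ Q, ∀ i, 1 ≤ i → i ≤ M → zv l v i ∉ I ∧ zv l v i ∉ W)
    (hO : ∀ v ∈ Q, Zone O l M v (θ v)) (hO' : ∀ v ∈ Q, Zone O' l M v (θ' v))
    (hag : ∀ a b, (∀ v ∈ Q, ∀ i, 1 ≤ i → i ≤ M → a ≠ zv l v i ∧ b ≠ zv l v i) →
      (O s(a, b) ↔ O' s(a, b)))
    {q : V d} (hq : q ∈ Q) (hg : GP Λ I W Q O X q) (hf : FP Λ I W O' X q) : θ q = θ' q := by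
  classical
  obtain ⟨g, g1, g2, g3, g4⟩ := hg
  obtain ⟨f, f1, f2, f3⟩ := hf
  let Z : Finset (V d) := (Q ×ˢ Finset.Icc 1 M).image fun p => zv l p.1 p.2
  have hZ : ∀ y, y ∈ Z ↔ ∃ v ∈ Q, ∃ i, 1 ≤ i ∧ i ≤ M ∧ y = zv l v i := by
    intro y
    simp only [Z, Finset.mem_image, Finset.mem_product, Finset.mem_Icc, Prod.exists]
    constructor
    · rintro ⟨v, i, ⟨h1, h2, h3⟩, rfl⟩
      exact ⟨v, h1, i, h2, h3, rfl⟩
    · rintro ⟨v, h1, i, h2, h3, rfl⟩
      exact ⟨v, i, ⟨h1, h2, h3⟩, rfl⟩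
  have hgZ : ∀ y ∈ Z, Hop Λ O X g y = 0 := fun y hy => by
    obtain ⟨v, hv, i, h1, h2, rfl⟩ := (hZ y).1 hy
    exact g1 _ (hΛ v hv i h2) (hIW v hv i h1 h2).2
  have hfZ : ∀ y ∈ Z, Hop Λ O' X f y = 0 := fun y hy => by
    obtain ⟨v, hv, i, h1, h2, rfl⟩ := (hZ y).1 hy
    exact f1 _ (hΛ v hv i h2) (hIW v hv i h1 h2).1
  have hadj : ∀ a ∈ Λ \ Z, ∀ b ∈ Λ \ Z, ((OG O).Adj a b ↔ (OG O').Adj b a) := by
    intro a ha b hb
    rw [(OG O').adj_comm]
    refine and_congr_right fun _ => hag a b fun v hv i h1 h2 => ⟨fun e => ?_, fun e => ?_⟩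
    · exact (Finset.mem_sdiff.1 ha).2 ((hZ _).2 ⟨v, hv, i, h1, h2, e⟩)
    · exact (Finset.mem_sdiff.1 hb).2 ((hZ _).2 ⟨v, hv, i, h1, h2, e⟩)
  have hqm : q ∈ Λ \ Z := by
    refine Finset.mem_sdiff.2 ⟨by simpa [gr_zv_zero] using hΛ q hq 0 (Nat.zero_le _), fun h => ?_⟩
    obtain ⟨v, hv, i, h1, h2, h3⟩ := (hZ q).1 h
    have h4 : zv l q 0 = zv l v i := by rw [gr_zv_zero]; exact h3
    obtain rfl := hinj q hq v hv 0 (Nat.zero_le _) i h2 h4
    have := gr_zv_inj h4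
    omega
  have h0 : ∑ x ∈ Λ \ Z, (f x * Hop Λ O X g x - Hop Λ O' X f x * g x) = 0 := by
    refine Finset.sum_eq_zero fun x hx' => ?_
    have hxΛ := (Finset.mem_sdiff.1 hx').1
    have a1 : f x * Hop Λ O X g x = 0 := by
      by_cases h : x ∈ W
      · rw [f2 x h, zero_mul]
      · rw [g1 x hxΛ h, mul_zero]
    have a2 : Hop Λ O' X f x * g x = 0 := by
      by_cases h : x ∈ I
      · rw [g2 x h, mul_zero]
      · rw [f1 x hxΛ h, zero_mul]
    rw [a1, a2, sub_zero]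
  have h1 : ∀ x ∈ Λ \ Z, f x * Hop Λ O X g x - Hop Λ O' X f x * g x
      = ((∑ y ∈ Λ \ Z, if (OG O').Adj x y then f y * g x else 0)
        - ∑ y ∈ Λ \ Z, if (OG O).Adj x y then f x * g y else 0)
        + if x = q then ((X q (dg Λ O q) - tau (fun i => X (zv l q i)) (θ q) 0)
          - (X q (dg Λ O' q) - tau (fun i => X (zv l q i)) (θ' q) 0)) * f q else 0 := by
    intro x hx'
    have hxZ := (Finset.mem_sdiff.1 hx').2
    rw [gr_split hX hx hθ hΛ hZ hO hgZ hxZ, gr_split hX hx hθ' hΛ hZ hO' hfZ hxZ]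
    have e1 : (∑ y ∈ Λ \ Z, if (OG O').Adj x y then f y * g x else 0)
        = (∑ y ∈ Λ \ Z, if (OG O').Adj x y then f y else 0) * g x := by
      rw [Finset.sum_mul]; simp only [ite_mul, zero_mul]
    have e2 : (∑ y ∈ Λ \ Z, if (OG O).Adj x y then f x * g y else 0)
        = f x * ∑ y ∈ Λ \ Z, if (OG O).Adj x y then g y else 0 := by
      rw [Finset.mul_sum]; simp only [mul_ite, mul_zero]
    rw [e1, e2]
    by_cases hxq : x = q
    · subst hxq
      rw [if_pos hq, if_pos hq, if_pos rfl, g3]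
      ring
    · rw [if_neg hxq]
      by_cases hxQ : x ∈ Q
      · rw [if_pos hxQ, if_pos hxQ, g4 x hxQ hxq]
        ring
      · have e3 : dg Λ O x = dg Λ O' x := by
          unfold dg
          congr 1
          refine Finset.filter_congr fun y hy => ?_
          by_cases hyZ : y ∈ Z
          · exact ⟨fun h => absurd (gr_out hZ hO hxZ y hyZ h).1 hxQ,
              fun h => absurd (gr_out hZ hO' hxZ y hyZ h).1 hxQ⟩
          · rw [hadj x hx' y (Finset.mem_sdiff.2 ⟨hy, hyZ⟩), (OG O').adj_comm]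
        rw [if_neg hxQ, if_neg hxQ, e3]
        ring
  rw [Finset.sum_congr rfl h1, Finset.sum_add_distrib, Finset.sum_sub_distrib,
    Finset.sum_ite_eq', if_pos hqm, Finset.sum_comm] at h0
  have h2 : (∑ y ∈ Λ \ Z, ∑ x ∈ Λ \ Z, if (OG O').Adj x y then f y * g x else 0)
      = ∑ x ∈ Λ \ Z, ∑ y ∈ Λ \ Z, if (OG O).Adj x y then f x * g y else 0 :=
    Finset.sum_congr rfl fun x hx' => Finset.sum_congr rfl fun y hy =>
      if_congr (hadj x hx' y hy).symm rfl rfl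
  rw [h2, sub_self, zero_add] at h0
  exact tau_inj (Y := fun i => X (zv l q i)) hx (fun i n => hX.lo _ n) (fun i n n' => hX.sep _ n n')
    (tau_eq hx (fun i n => hX.lo _ n) (hX.sep _ _ _)
      (sub_eq_zero.1 ((mul_eq_zero.1 h0).resolve_right f3)))

end Pool.Agent.P.MP_d74cc6_pr.H
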