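import Pool.Agent.P.MP_d74cc6_pr.Rank
import Pool.Agent.P.MP_d74cc6_pr.H.Green

/-! The transfer rank is of surface order, uniformly in the diagonal. -/

open MeasureTheory

namespace Pool.Agent.P.MP_d74cc6_pr.H

open Par

variable {d : ℕ}

theorem pattern_bound {l : Fin d} {M : ℕ} {Q : Finset (V d)}
    (hinj : ∀ v ∈ Q, ∀ v' ∈ Q, ∀ i ≤ M, ∀ i' ≤ M, zv l v i = zv l v' i' → v = v')
    {π : Sym2 (V d) × Bool → unitInterval} {ε : unitInterval}
    (hπ : ∀ e, π (e, true) = ε) {Λ I W : Finset (V d)} {X : V d → ℕ → ℝ} {a : ℝ}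
    (hX : Gd X a) (hx : 2 < a)
    (hΛ : ∀ v ∈ Q, ∀ i ≤ M, zv l v i ∈ Λ)
    (hIW : ∀ v ∈ Q, ∀ i, 1 ≤ i → i ≤ M → zv l v i ∉ I ∧ zv l v i ∉ W)
    {Env : Set (Om d)} (hE : Loc Env)
    (hinv : ∀ ω ∈ Env, ∀ ω', (∀ v ∈ Q, ZS l M ω v) → (∀ v ∈ Q, ZS l M ω' v) →
      (∀ x, x ∉ segJ l M Q → ω' x = ω x) → ω' ∈ Env) :
    (M : ℝ) ^ Q.card * Pr π (Env ∩ {ω | ∀ v ∈ Q, ZS l M ω v ∧
      GP Λ I W Q (op (orMap ω)) X v ∧ FP Λ I W (op (orMap ω)) X v}) ≤ Pr π Env := by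
  classical
  have hcard : (Fintype.card (Q → Fin M) : ℝ) = (M : ℝ) ^ Q.card := by simp
  rw [← hcard]
  refine card_mul_Pr_le π (segJ l M Q) (pat l) (fun θ θ' h => ?_)
    (((1 - (ε : ℝ)) * ε ^ (M - 1)) ^ Q.card) (fun θ => ?_) ?_ ?_ ?_ ?_
  · funext v
    have := h _ (mem_segJ.2 ⟨v, v.2, θ v, (θ v).2, rfl⟩)
    by_contra hne
    exact (pat_seg hinj θ v (θ v).2 true).1
      (this.trans ((pat_seg hinj θ' v (θ v).2 true).2 fun h => hne (Fin.ext h))) rfl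
  · rw [segJ, Finset.prod_image, Finset.prod_product, ← Finset.prod_const, ← Finset.prod_coe_sort Q,
      ← Finset.prod_coe_sort Q]
    · refine Finset.prod_congr rfl fun v _ => ?_
      rw [← Finset.mul_prod_erase _ _ (Finset.mem_range.2 (θ v).2)]
      congr 1
      · rw [hπ, Bool.eq_false_iff.2 fun h => (pat_seg hinj θ v (θ v).2 true).1 h rfl, wt_false]
      · rw [Finset.prod_congr rfl (g := fun _ => (ε : ℝ)) fun i hi => ?_, Finset.prod_const,
          Finset.card_erase_of_mem (Finset.mem_range.2 (θ v).2), Finset.card_range]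
        rw [hπ, (pat_seg hinj θ v (Finset.mem_range.1 (Finset.mem_of_mem_erase hi)) true).2
          (Finset.ne_of_mem_erase hi), wt_true]
    · rintro ⟨v, i⟩ h1 ⟨v', i'⟩ h2 h
      simp only [Finset.coe_product, Finset.coe_range, Set.mem_prod, Finset.mem_coe,
        Set.mem_Iio] at h1 h2
      obtain ⟨h3, h4⟩ := seg_inj hinj h1.1 h2.1 h1.2 h2.2 (Prod.ext_iff.1 h).1
      exact Prod.ext h3 h4
  · refine hE.inter (Loc.forall_mem Q (A := fun v => {ω | ZS l M ω v ∧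
      GP Λ I W Q (op (orMap ω)) X v ∧ FP Λ I W (op (orMap ω)) X v}) fun v _ => ?_)
    refine ((dep_ZS l M v).loc ((ETo_finite (zoneSet_finite l M v)).prod Set.finite_univ)).inter
      (Loc.orMap (A := {ω | GP Λ I W Q (op ω) X v ∧ FP Λ I W (op ω) X v})
        ⟨_, EIn_finite Λ.finite_toSet, fun ω ω' h h' => ⟨ag_GP (agree_op h) h'.1, ag_FP (agree_op h) h'.2⟩⟩)
  · rintro ω ⟨-, hω⟩
    choose t ht h using fun v : Q => (hω v v.2).1.2
    refine ⟨fun v => ⟨t v, ht v⟩, fun x hx => ?_⟩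
    obtain ⟨v, hv, i, hi, rfl⟩ := mem_segJ.1 hx
    rw [Bool.eq_iff_iff, pat_seg hinj _ ⟨v, hv⟩ hi]
    exact (h ⟨v, hv⟩).seg_iff hi
  · rintro ω ⟨h1, hω⟩ θ
    exact hinv ω h1 _ (fun v hv => (hω v hv).1) (fun v hv => (hω v hv).1.overwrite hinj θ hv)
      fun x hx => ow_of_notMem hx
  · rintro ω θ θ' ⟨-, h1⟩ ⟨-, h2⟩
    have key : ∀ (θ : Q → Fin M) (v : V d) (hv : v ∈ Q), ZS l M (ow (segJ l M Q) (pat l θ) ω) v →
        Zone (op (orMap (ow (segJ l M Q) (pat l θ) ω))) l M v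
          (if h : v ∈ Q then θ ⟨v, h⟩ else 0) := fun θ v hv h => h.zone fun i hi => by
      rw [ow_of_mem (mem_segJ.2 ⟨v, hv, i, hi, rfl⟩), pat_seg hinj θ ⟨v, hv⟩ hi, dif_pos hv]
    funext v
    have := gr_consistent (θ := fun v => if h : v ∈ Q then θ ⟨v, h⟩ else 0)
      (θ' := fun v => if h : v ∈ Q then θ' ⟨v, h⟩ else 0) hX hx
      (fun v hv => by simp only [dif_pos hv]; exact (θ _).2)
      (fun v hv => by simp only [dif_pos hv]; exact (θ' _).2) hΛ hinj hIW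
      (fun v hv => key θ v hv (h1 v hv).1) (fun v hv => key θ' v hv (h2 v hv).1)
      (fun a b hab => ?_) v.2 (h1 v v.2).2.1 (h2 v v.2).2.2
    · simp only [dif_pos v.2] at this
      exact Fin.ext this
    have : ∀ c, (s(a, b), c) ∉ segJ l M Q := fun c hc => by
      obtain ⟨v, hv, i, hi, h⟩ := mem_segJ.1 hc
      obtain ⟨h3, h4⟩ := hab v hv (i + 1) (by omega) hi
      rcases Sym2.eq_iff.1 (Prod.ext_iff.1 h).1 with ⟨h5, -⟩ | ⟨-, h5⟩
      · exact h3 h5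
      · exact h4 h5
    simp only [op, orMap_eq_true, ow_of_notMem (this _)]

section Cells

variable (P : Par d) {K : ℕ}

/-- closed cells -/
def hClosed (Λ I R : Finset (V d)) (X : V d → ℕ → ℝ) (ω : Om d) (a : V d) : Prop :=
  P.Bad ω a ∨ ∃ i, dead Λ I R (op (orMap ω)) X (P.sv ω (P.par a i)) ∧
    (¬ dead Λ I R (op (orMap ω)) X (P.sv ω a) ∨ P.sv ω a ∈ I)

theorem hpattern_cells {π : Sym2 (V d) × Bool → unitInterval} {ε : unitInterval}
    (hπ : ∀ e, π (e, true) = ε) {Λ I : Finset (V d)} {Y : V d → ℕ → ℝ} {a₀ : ℝ}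
    (hY : Gd Y a₀) (hx : 2 < a₀)
    (hI : ∀ y ∈ I, (P.s : ℤ) ∣ y P.l + 5 * P.L) (T₁ T' Q : Finset (V d)) (hQ : Q ⊆ T')
    (hΛ : ∀ a ∈ Q, box (P.pos a) (5 * P.s) ⊆ Λ) (f : V d → V d) :
    (P.M : ℝ) ^ Q.card * Pr π {ω | (∀ a ∈ T₁, P.Bad ω a) ∧ ∀ a ∈ Q, P.lo (P.Spec ω) a < P.t ∧
      GP Λ I (T'.image fun a => P.sv ω (f a)) (Q.image (P.sv ω)) (op (orMap ω)) Y (P.sv ω a) ∧
      FP Λ I (T'.image fun a => P.sv ω (f a)) (op (orMap ω)) Y (P.sv ω a)} ≤
      Pr π {ω | ∀ a ∈ T₁, P.Bad ω a} := by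
  classical
  set U := T' ∪ T'.image f with hU
  let X : Om d → U → ℕ := fun ω a => P.lo (P.Spec ω) a
  have hX : LocF X := ⟨⋃ a ∈ U, ⋃ j ∈ Finset.range P.t, P.SpS a j,
    U.finite_toSet.biUnion fun a _ => (Finset.finite_toSet _).biUnion fun j _ => P.SpS_finite a j,
    fun ω ω' h => funext fun a => P.dependsOn_lo a fun x hx => h x (Set.mem_biUnion a.2 hx)⟩
  have lB : Loc {ω | ∀ a ∈ T₁, P.Bad ω a} :=
    Loc.forall_mem T₁ (A := fun a => {ω | P.Bad ω a}) fun a _ => P.loc_Bad a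
  let ex : (U → ℕ) → V d → ℕ := fun c a => if h : a ∈ U then c ⟨a, h⟩ else 0
  rw [Pr_eq_sum_fiber π hX lB]
  refine le_trans (mul_le_mul_of_nonneg_left ((Pr_mono (B := ⋃ c ∈ hX.finite_range.toFinset,
    {_ω | ∀ a ∈ Q, ex c a < P.t} ∩ (({ω | X ω = c} ∩ {ω | ∀ a ∈ T₁, P.Bad ω a}) ∩
      {ω | ∀ v ∈ Q.image fun a => P.vp a (ex c a), ZS P.l P.M ω v ∧
        GP Λ I (T'.image fun a => P.vp (f a) (ex c (f a))) (Q.image fun a => P.vp a (ex c a))
          (op (orMap ω)) Y v ∧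
        FP Λ I (T'.image fun a => P.vp (f a) (ex c (f a))) (op (orMap ω)) Y v})) ?_).trans
    (Pr_biUnion_le π _ _)) (by positivity)) ?_
  · rintro ω ⟨h1, h2⟩
    have e : ∀ a ∈ U, ex (X ω) a = P.lo (P.Spec ω) a := fun a ha => dif_pos ha
    have e1 : ∀ a ∈ Q, ex (X ω) a = P.lo (P.Spec ω) a := fun a ha =>
      e a (Finset.mem_union_left _ (hQ ha))
    have e2 : (T'.image fun a => P.vp (f a) (ex (X ω) (f a))) = T'.image fun a => P.sv ω (f a) :=
      Finset.image_congr fun a ha => by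
        simp only [sv]
        rw [e _ (Finset.mem_union_right _ (Finset.mem_image_of_mem f ha))]
    have e3 : (Q.image fun a => P.vp a (ex (X ω) a)) = Q.image (P.sv ω) :=
      Finset.image_congr fun a ha => by simp only [sv]; rw [e1 a ha]
    refine Set.mem_biUnion (x := X ω) (by simp) ⟨fun a ha => e1 a ha ▸ (h2 a ha).1, ⟨rfl, h1⟩, ?_⟩
    rw [e2, e3]
    intro v hv
    obtain ⟨a, ha, rfl⟩ := Finset.mem_image.1 hv
    exact ⟨(P.spec_lo (h2 a ha).1.ne).2.2, (h2 a ha).2⟩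
  rw [Finset.mul_sum]
  refine Finset.sum_le_sum fun c _ => ?_
  by_cases hc : ∀ a ∈ Q, ex c a < P.t
  swap
  · rw [show {_ω : Om d | ∀ a ∈ Q, ex c a < P.t} = ∅ from Set.eq_empty_of_forall_notMem fun _ => hc]
    simpa using Pr_nonneg π _
  rw [show {_ω : Om d | ∀ a ∈ Q, ex c a < P.t} = Set.univ from Set.eq_univ_of_forall fun _ => hc,
    Set.univ_inter, ← Finset.card_image_of_injOn (s := Q) (f := fun a => P.vp a (ex c a))
      fun a ha a' ha' h => (Prod.ext_iff.1 (P.zv_eq (hc a ha) (hc a' ha') (Nat.zero_le _)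
        (Nat.zero_le _) (by simpa using h))).1]
  refine pattern_bound (fun v hv v' hv' i hi i' hi' h => ?_) hπ hY hx (fun v hv i hi => ?_)
    (fun v hv i i1 iM => ?_) ((hX.loc_eq c).inter lB) fun ω hω ω' h1 h2 h3 => ?_
  · obtain ⟨a, ha, rfl⟩ := Finset.mem_image.1 hv
    obtain ⟨a', ha', rfl⟩ := Finset.mem_image.1 hv'
    obtain rfl : a = a' := (Prod.ext_iff.1 (P.zv_eq (hc a ha) (hc a' ha') hi hi' h)).1
    rfl
  · obtain ⟨a, ha, rfl⟩ := Finset.mem_image.1 hv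
    exact hΛ a ha (P.Terr_subset_box (by simp) (hc a ha) (P.zv_mem_Terr a _ hi))
  · obtain ⟨a, ha, rfl⟩ := Finset.mem_image.1 hv
    refine ⟨fun h => P.not_dvd_zv a _ i1 iM (hI _ h), fun h => ?_⟩
    obtain ⟨b, -, hb⟩ := Finset.mem_image.1 h
    exact P.not_dvd_zv a _ i1 iM (hb ▸ P.dvd_vp _ _)
  · have e1 : P.Spec ω' = P.Spec ω := P.spec_inv (fun v hv => by
      obtain ⟨a, ha, rfl⟩ := Finset.mem_image.1 hv
      exact ⟨a, _, hc a ha, rfl⟩) h1 h2 h3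
    have e2 : lay1 ω' = lay1 ω := funext fun e => h3 _ (by simp [mem_segJ])
    refine ⟨?_, fun a ha => ?_⟩
    · rw [← hω.1]
      simp only [Set.mem_ofPred_eq, X, e1]
    · have := hω.2 a ha
      simp only [Bad] at this ⊢
      rwa [e1, e2]

theorem hPr_closed_le {π : Sym2 (V d) × Bool → unitInterval} {ε : unitInterval}
    (hπ : ∀ e, π (e, true) = ε) {Λ I R : Finset (V d)} {X : V d → ℕ → ℝ} {a₀ : ℝ}
    (hX : Gd X a₀) (hx : 2 < a₀)
    (hx' : 2 * d + (4 * d) ^ ((d + 4 * P.ρ) * P.s + 1) < a₀)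
    (hI : ∀ y ∈ I, (P.s : ℤ) ∣ y P.l + 5 * P.L) {η : ℝ} (h0 : 0 ≤ η) (h1 : η ≤ 1)
    (hB : ∀ T : Finset (V d), Pr π {ω | ∀ a ∈ T, P.Bad ω a} ≤ η ^ T.card)
    (hM : 1 ≤ P.M * η ^ (4 * (d + 4 * P.ρ + 11) ^ d)) (r₀ : ℕ) (T : Finset (V d))
    (hΛ : ∀ a ∈ T, box (P.pos a) (5 * P.s) ⊆ Λ) :
    Pr π {ω | (∀ a ∈ T, hClosed P Λ I R X ω a) ∧ rk Λ I R (op (orMap ω)) X ≤ r₀} ≤
      4 * P.M ^ r₀ * (8 * η) ^ T.card := by
  classical
  set C := 4 * (d + 4 * P.ρ + 11) ^ d with hC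
  let Ix := ((Finset.univ : Finset (Fin 4)) ×ˢ T.powerset ×ˢ T.powerset ×ˢ T.powerset).filter
    fun x => T.card ≤ x.2.1.card + C * x.2.2.1.card ∧ x.2.2.1.card ≤ x.2.2.2.card + r₀ ∧
      x.2.2.2 ⊆ x.2.2.1
  refine le_trans (Pr_mono (B := ⋃ x ∈ Ix, {ω | (∀ a ∈ x.2.1, P.Bad ω a) ∧ ∀ a ∈ x.2.2.2,
      P.lo (P.Spec ω) a < P.t ∧
      GP Λ I (x.2.2.1.image fun a => P.sv ω (P.par a x.1)) (x.2.2.2.image (P.sv ω))
        (op (orMap ω)) X (P.sv ω a) ∧
      FP Λ I (x.2.2.1.image fun a => P.sv ω (P.par a x.1)) (op (orMap ω)) X (P.sv ω a)}) ?_)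
    ((Pr_biUnion_le π _ _).trans ((Finset.sum_le_card_nsmul _ _ (P.M ^ r₀ * η ^ T.card)
      fun x hx => ?_).trans ?_))
  · rintro ω ⟨h2, h3⟩
    have : ∀ a, ∃ i, a ∈ T → ¬ P.Bad ω a → dead Λ I R (op (orMap ω)) X (P.sv ω (P.par a i)) ∧
        (¬ dead Λ I R (op (orMap ω)) X (P.sv ω a) ∨ P.sv ω a ∈ I) := fun a => by
      by_cases ha : a ∈ T
      · rcases h2 a ha with h | ⟨i, h⟩
        · exact ⟨0, fun _ h' => absurd h h'⟩
        · exact ⟨i, fun _ _ => h⟩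
      · exact ⟨0, fun h => absurd h ha⟩
    choose o ho using this
    obtain ⟨i, T', h4, h5, h6, h7⟩ := exists_sep_subset (T.filter fun a => ¬ P.Bad ω a) o
      (d + 4 * P.ρ + 11) (by omega)
    have hT : ∀ a ∈ T', a ∈ T := fun a ha => (Finset.mem_filter.1 (h4 ha)).1
    have hb : ∀ a ∈ T', ¬ P.Bad ω a := fun a ha => (Finset.mem_filter.1 (h4 ha)).2
    have hd : ∀ a ∈ T', dead Λ I R (op (orMap ω)) X (P.sv ω (P.par a i)) := fun a ha =>
      h6 a ha ▸ (ho a (hT a ha) (hb a ha)).1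
    obtain ⟨Q, h8, h9, h10⟩ := gr_GP (Λ := Λ) (I := I) (R := R) (O := op (orMap ω)) hX
      (by linarith) hx' T'
      (P.sv ω) (fun a => P.sv ω (P.par a i))
      (fun a ha => (P.wk_par (hb a ha) i).mono_set (hΛ a (hT a ha)))
      (fun a ha a' ha' hne => by
        obtain ⟨n, hn⟩ := h7 a ha a' ha' hne
        have g1 := mem_box.1 (P.wk_par (hb a ha) i).mem_left n
        have g2 := mem_box.1 (P.wk_par (hb a' ha') i).mem_right n
        have g3 := P.s_mul_sub hn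
        obtain ⟨f1, f2, f3, f4, f5⟩ := P.facts
        refine ⟨n, ?_⟩
        have g4 : (P.s : ℤ) * (d + 4 * P.ρ + 11 : ℕ) = ((d + 4 * P.ρ) * P.s : ℕ) + 11 * P.s := by
          push_cast; ring
        rw [g4, le_abs'] at g3
        rw [abs_le] at g1 g2
        rw [lt_abs]
        generalize (((d + 4 * P.ρ) * P.s : ℕ) : ℤ) = D at g3 ⊢
        by_cases hk : n = P.k
        · subst hk
          rw [pos_k] at g1 g2
          omega
        · rw [P.pos_ne _ hk] at g1 g2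
          omega) hd
    refine Set.mem_biUnion (x := (i, T.filter (P.Bad ω), T', Q)) (Finset.mem_coe.2
      (Finset.mem_filter.2 ⟨?_, ?_, by simp only []; omega, h8⟩))
      ⟨fun a ha => (Finset.mem_filter.1 ha).2, fun a ha => ?_⟩
    · simp only [Finset.mem_product, Finset.mem_univ, Finset.mem_powerset, true_and]
      exact ⟨Finset.filter_subset _ _, hT, h8.trans hT⟩
    · have := Finset.card_filter_add_card_filter_not (s := T) (P.Bad ω)
      rw [Fintype.card_fin, ← hC] at h5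
      simp only []
      omega
    · refine ⟨P.lo_lt_of_not_Bad (hb a (h8 ha)), h10 a ha, gr_FP (R := R) hX ?_ ?_ fun w hw => ?_⟩
      · have : (0 : ℝ) ≤ (4 * d) ^ ((d + 4 * P.ρ) * P.s + 1) := by positivity
        linarith
      · refine (ho a (hT a (h8 ha)) (hb a (h8 ha))).2.resolve_right fun h => ?_
        obtain ⟨g, -, g1, g2, -⟩ := h10 a ha
        exact zero_ne_one ((g1 _ h).symm.trans g2)
      · obtain ⟨b, hb, rfl⟩ := Finset.mem_image.1 hw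
        exact hd b hb
  · obtain ⟨h2, h3, h4, h5⟩ := Finset.mem_filter.1 hx
    simp only [Finset.mem_product, Finset.mem_univ, Finset.mem_powerset, true_and] at h2
    have h6 := (hpattern_cells P hπ hX ‹2 < a₀› hI x.2.1 x.2.2.1 x.2.2.2 h5
      (fun a ha => hΛ a (h2.2.2 ha)) fun a => P.par a x.1).trans (hB _)
    have M1 : (1 : ℝ) ≤ P.M := by exact_mod_cast P.hM
    refine le_of_mul_le_mul_left (h6.trans ?_) (a := (P.M : ℝ) ^ x.2.2.2.card) (by positivity)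
    calc η ^ x.2.1.card ≤ (P.M * η ^ C) ^ x.2.2.1.card * η ^ x.2.1.card :=
          le_mul_of_one_le_left (by positivity) (one_le_pow₀ hM)
      _ = P.M ^ x.2.2.1.card * η ^ (x.2.1.card + C * x.2.2.1.card) := by
          rw [mul_pow, ← pow_mul, pow_add]; ring
      _ ≤ P.M ^ (x.2.2.2.card + r₀) * η ^ T.card :=
          mul_le_mul (pow_le_pow_right₀ M1 h4) (pow_le_pow_of_le_one h0 h1 h3) (by positivity)
            (by positivity)
      _ = _ := by rw [pow_add]; ring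
  · have : Ix.card ≤ 4 * 8 ^ T.card := by
      refine (Finset.card_filter_le _ _).trans (le_of_eq ?_)
      simp only [Finset.card_product, Finset.card_univ, Fintype.card_fin, Finset.card_powerset]
      rw [← mul_pow, ← mul_pow]
      norm_num
    rw [nsmul_eq_mul, mul_pow]
    refine (mul_le_mul_of_nonneg_right (Nat.cast_le.2 this) (by positivity)).trans (le_of_eq ?_)
    push_cast; ring

theorem hreach (hK : 1 ≤ K) (X : V d → ℕ → ℝ) (ω : Om d) {σ : V d} (hσ : σ ∈ P.Sl K) :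
    Reach {z | z ∈ DD K ∧ hClosed P (P.Lam K) (P.II K) (P.RR K) X ω (P.cell σ z)} (-K) (0, K) := by
  by_contra hr
  obtain ⟨F, h1, h2, h3, h4⟩ := exists_curve
    (X := {z | z ∈ DD K ∧ hClosed P (P.Lam K) (P.II K) (P.RR K) X ω (P.cell σ z)})
    ((DD K).finite_toSet.subset fun z hz => hz.1) (-K)
  obtain ⟨f1, f2, f3, f4, f5⟩ := P.facts
  have h5 : ∀ x : ℕ, F x ≤ K + x := fun x => by
    induction x with
    | zero => simpa using h4 _ _ hr
    | succ x ih =>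
      have := (abs_le.1 (h3 x)).2
      push_cast; omega
  have h6 : ∀ x : ℕ, x < K →
      ¬ hClosed P (P.Lam K) (P.II K) (P.RR K) X ω (P.cell σ (x, F x)) := fun x hx h => by
    refine h2 x ⟨Finset.mem_product.2 ⟨Finset.mem_Ico.2 ⟨?_, ?_⟩, Finset.mem_Icc.2 ⟨h1 _, ?_⟩⟩, h⟩
    · positivity
    · exact Int.ofNat_lt.2 hx
    · have := h5 x
      simp only []; omega
  have h7 : ∀ x : ℕ, x ≤ K → P.sv ω (P.cell σ (x, F x)) ∈ P.Lam K ∧
      P.lo (P.Spec ω) (P.cell σ (x, F x)) < P.t ∧ ¬ dead (P.Lam K) (P.II K) (P.RR K)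
        (op (orMap ω)) X (P.sv ω (P.cell σ (x, F x))) := fun x hx => by
    induction x with
    | zero =>
      have g1 := P.lo_lt_of_not_Bad fun h => h6 0 hK (Or.inl h)
      have g2 := P.Lj_le g1
      have g3 : P.sv ω (P.cell σ ((0 : ℕ), F (0 : ℕ))) ∈ P.II K := by
        have e : ((P.s * (K + 1) : ℕ) : ℤ) = P.s * K + P.s := by push_cast; ring
        have h0 : (0 : ℤ) ≤ P.s * K := by positivity
        have g4 : P.sv ω (P.cell σ ((0 : ℕ), F (0 : ℕ))) P.k =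
            11 * (P.L * P.lo (P.Spec ω) (P.cell σ ((0 : ℕ), F (0 : ℕ)))) := by
          rw [sv, P.vp_ne _ _ P.hkl, cand_k, P.cell_k hσ]; simp
        refine Finset.mem_filter.2 ⟨mem_box.2 fun i => ?_, by omega, by omega, P.dvd_vp _ _⟩
        rw [e, Pi.zero_apply, sub_zero]
        by_cases hk : i = P.k
        · rw [hk, g4, abs_le]; omega
        by_cases hl : i = P.l
        · have := P.s_mul_sub_le (a := F (0 : ℕ)) (b := 0) (c := K) (by
            have := h5 0; have := h1 (0 : ℕ); rw [abs_le]; omega)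
          rw [abs_le] at this
          rw [hl, sv, vp_l, P.cell_l hσ, abs_le]
          simp only []
          omega
        · have := P.s_mul_sub_le (a := σ i) (b := 0) (c := K)
            (by simpa using (P.mem_Sl hσ).2.2 i)
          rw [mul_zero, sub_zero] at this
          rw [sv, P.vp_ne _ _ hl, P.cand_ne _ _ hk, P.cell_ne _ _ hk hl]
          omega
      exact ⟨box_mono _ (Nat.mul_le_mul_left _ (by omega)) (Finset.mem_filter.1 g3).1, g1,
        fun h => h6 0 hK (Or.inr ⟨3, h, Or.inr g3⟩)⟩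
    | succ x ih =>
      obtain ⟨-, -, g1⟩ := ih (by omega)
      have g2 := P.wk_of_not_Bad (fun h => h6 x hx (Or.inl h)) (h3 x)
      have g3 := abs_le.1 (h3 x)
      have e : P.nb (P.cell σ (x, F x)) (F (x + 1) - F x) = P.cell σ ((x + 1 : ℕ), F (x + 1 : ℕ)) := by
        rw [P.nb_cell hσ]; push_cast; congr 2; ring
      rw [e] at g2
      refine ⟨P.cell_valid hσ (z := (x, F x)) ?_ ?_ g2.2.mem_right, g2.1, fun h =>
        h6 x hx (Or.inr ⟨⟨(F (x + 1) - F x + 1).toNat, by omega⟩, ?_, Or.inl g1⟩)⟩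
      · rw [abs_le]; simp only []; omega
      · have := h5 x; have := h1 x
        rw [abs_le]; simp only []; omega
      · rw [par, if_neg (fun h' => by have := congrArg Fin.val h'; simp only at this; omega),
          show (((F (x + 1) - F x + 1).toNat : ℕ) : ℤ) - 1 = F (x + 1) - F x by omega, e]
        exact h
  obtain ⟨g1, g2, g3⟩ := h7 K le_rfl
  refine g3 (dead_of_mem (Finset.mem_filter.2 ⟨g1, Or.inr ?_⟩))
  have g4 := P.Lj_le g2
  rw [sv, P.vp_ne _ _ P.hkl, cand_k, P.cell_k hσ]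
  simp only []
  omega

theorem hPr_rk_le {π : Sym2 (V d) × Bool → unitInterval} {ε : unitInterval}
    (hπ : ∀ e, π (e, true) = ε) {X : V d → ℕ → ℝ} {a₀ : ℝ} (hX : Gd X a₀) (hx : 2 < a₀)
    (hx' : 2 * d + (4 * d) ^ ((d + 4 * P.ρ) * P.s + 1) < a₀)
    (hB : ∀ T : Finset (V d), Pr π {ω | ∀ a ∈ T, P.Bad ω a} ≤ (1 / 64) ^ T.card)
    (hM : (1 : ℝ) ≤ P.M * (1 / 64) ^ (4 * (d + 4 * P.ρ + 11) ^ d)) (hK : 1 ≤ K) (r₀ : ℕ) :
    Pr π {ω | rk (P.Lam K) (P.II K) (P.RR K) (op (orMap ω)) X ≤ r₀} ≤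
      4 * P.M ^ r₀ * (1 / 4) ^ ((2 * K + 1) * (P.Sl K).card) := by
  classical
  obtain ⟨𝒯, h1, h2, h3⟩ := exists_witnesses (DD K) (-K) (0, K)
  let TT : (P.Sl K → Finset (ℤ × ℤ)) → Finset (V d) := fun τ =>
    Finset.univ.biUnion fun σ => (τ σ).image (P.cell σ)
  refine le_trans (Pr_mono (B := ⋃ τ ∈ Fintype.piFinset fun _ : P.Sl K => 𝒯,
    {ω | (∀ a ∈ TT τ, hClosed P (P.Lam K) (P.II K) (P.RR K) X ω a) ∧
      rk (P.Lam K) (P.II K) (P.RR K) (op (orMap ω)) X ≤ r₀}) fun ω hω => ?_)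
    ((Pr_biUnion_le π _ _).trans ((Finset.sum_le_sum
      (g := fun τ => 4 * (P.M : ℝ) ^ r₀ * ∏ σ, (1 / 8 : ℝ) ^ (τ σ).card) fun τ hτ => ?_).trans ?_))
  · choose τ h4 h5 using fun σ : P.Sl K => h2 _ (fun z hz => hz.1) (hreach P hK X ω σ.2)
    refine Set.mem_biUnion (x := τ) (Finset.mem_coe.2 (Fintype.mem_piFinset.2 h4))
      ⟨fun a ha => ?_, hω⟩
    obtain ⟨σ, -, ha⟩ := Finset.mem_biUnion.1 ha
    obtain ⟨z, hz, rfl⟩ := Finset.mem_image.1 ha
    exact (h5 σ hz).2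
  · refine (hPr_closed_le P hπ hX hx hx' (fun y hy => (Finset.mem_filter.1 hy).2.2.2) (by norm_num)
      (by norm_num) hB hM r₀ (TT τ) fun a ha => ?_).trans (le_of_eq ?_)
    · obtain ⟨σ, -, ha⟩ := Finset.mem_biUnion.1 ha
      obtain ⟨z, hz, rfl⟩ := Finset.mem_image.1 ha
      have := Finset.mem_product.1 (h1 _ (Fintype.mem_piFinset.1 hτ σ) hz)
      rw [Finset.mem_Ico, Finset.mem_Icc] at this
      exact P.cell_valid σ.2 (by rw [abs_le]; omega) (by rw [abs_le]; omega)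
    · rw [Finset.prod_pow_eq_pow_sum, Finset.card_biUnion, Finset.sum_congr rfl fun σ _ =>
        Finset.card_image_of_injective _ fun z z' h => (P.cell_inj σ.2 σ.2 h).2]
      · norm_num
      · intro σ _ σ' _ hne
        rw [Function.onFun, Finset.disjoint_left]
        intro a ha ha'
        obtain ⟨z, -, rfl⟩ := Finset.mem_image.1 ha
        obtain ⟨z', -, h⟩ := Finset.mem_image.1 ha'
        exact hne (Subtype.ext (P.cell_inj σ'.2 σ.2 h).1.symm)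
  · rw [← Finset.mul_sum, ← Finset.prod_univ_sum (fun _ : P.Sl K => 𝒯)
      fun _ T => (1 / 8 : ℝ) ^ T.card, Finset.prod_const, Finset.card_univ, Fintype.card_coe, pow_mul]
    refine mul_le_mul_of_nonneg_left (pow_le_pow_left₀
      (Finset.sum_nonneg fun T _ => by positivity) ?_ _) (by positivity)
    refine (h3 _ (by norm_num) le_rfl).trans (le_of_eq ?_)
    rw [show ((((0 : ℤ), (K : ℤ)).2 - -(K : ℤ) + 1).toNat) = 2 * K + 1 by simp only []; omega]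
    norm_num

end Cells

theorem rank_lower {k l : Fin d} (hkl : k ≠ l) {q p : unitInterval} (hqp : (q : ℝ) < p)
    (hp : (p : ℝ) < 1) {θ : ℝ} (hθ : 0 < θ) (hR : Perc d q θ) :
    ∃ c : ℝ, 0 < c ∧ ∃ a₀ : ℝ, 2 * d < a₀ ∧ ∀ ε : ℝ, 0 < ε → ∃ (Λ I R : Finset (V d)) (ℓ : ℕ),
      Λ.Nonempty ∧ (∀ x ∈ Λ, x ∉ R → nbr x ⊆ Λ) ∧ (R.card : ℝ) ≤ ε * Λ.card ∧
      (∀ v ∈ I, ∀ w ∈ R, ∃ i, (ℓ : ℤ) ≤ |v i - w i|) ∧ ∀ (X : V d → ℕ → ℝ) (a : ℝ), Gd X a →
      a₀ ≤ a → c * Λ.card ≤ ℓ * ∫ ω, (rk Λ I R (op ω) X : ℝ) ∂PM fun _ => p := by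
  have q0 : (0 : ℝ) ≤ q := q.2.1
  let p₁ : unitInterval := ⟨(q + p) / 2, by linarith, by linarith⟩
  have e1 : (p₁ : ℝ) = (q + p) / 2 := rfl
  have a1 : (0 : ℝ) < 1 - p₁ := by linarith
  have a2 : 0 < (1 - (p : ℝ)) / (1 - p₁) := div_pos (by linarith) a1
  have a3 : (1 - (p : ℝ)) / (1 - p₁) < 1 := (div_lt_one a1).2 (by linarith)
  let ε : unitInterval := ⟨1 - (1 - p) / (1 - p₁), by linarith, by linarith⟩
  have e2 : (ε : ℝ) = 1 - (1 - p) / (1 - p₁) := rfl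
  let π : Sym2 (V d) × Bool → unitInterval := fun x => cond x.2 ε p₁
  have hπ : ∀ e : Sym2 (V d), 1 - ((fun _ => p) e : ℝ) = ∏ b, (1 - (π (e, b) : ℝ)) := fun e => by
    rw [Fintype.prod_bool]
    change 1 - (p : ℝ) = (1 - ε) * (1 - p₁)
    rw [e2, sub_sub_cancel, div_mul_cancel₀ _ a1.ne']
  obtain ⟨κ, κ0, κ1, hκ⟩ : ∃ κ : ℝ, 0 < κ ∧ κ ≤ 1 ∧ ∀ x b, κ ≤ wt (π x) b := by
    refine ⟨min (min p₁ (1 - p₁)) (min ε (1 - ε)), lt_min (lt_min (by linarith) a1)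
      (lt_min (by linarith) (by linarith)), (min_le_left _ _).trans
        ((min_le_left _ _).trans p₁.2.2), ?_⟩
    rintro ⟨e, _ | _⟩ (_ | _)
    · exact (min_le_left _ _).trans (min_le_right _ _)
    · exact (min_le_left _ _).trans (min_le_left _ _)
    · exact (min_le_right _ _).trans (min_le_right _ _)
    · exact (min_le_right _ _).trans (min_le_left _ _)
  set δ : ℝ := (1 / 64) ^ 11 ^ d with hδ
  have δ0 : 0 < δ := by positivity
  obtain ⟨L, ρ, hL, hlink⟩ := link hkl (q := q) (p := p₁) (by linarith) hθ hR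
    (show 0 < δ / 10 by positivity)
  set b := 6 * (4 * (d + 4 * ρ + 11) ^ d) with hb
  have b0 : 0 < b := by positivity
  obtain ⟨t, ht, ht1, ht2⟩ := exists_scale
    (r := κ ^ ((10 * L + 1) ^ d * (10 * L + 1) ^ d + 4 * d * 2 ^ b)) (by positivity)
    (pow_le_one₀ κ0.le κ1) (show 0 < δ / 10 by positivity) (2 ^ b + 10)
  let P : Par d := ⟨k, l, hkl, L, 2 ^ b, t, ρ, hL, Nat.one_le_two_pow, ht⟩
  have hBad : ∀ a, Pr π {ω | P.Bad ω a} ≤ δ := fun a => by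
    refine (P.Pr_Bad_le (p := p₁) (fun _ => rfl) (δ := δ / 10 + δ / 10) (by positivity)
      (fun a j hj => P.le_Pr_Spec κ0.le κ1 hκ a hj) (fun a u j j' hu hj hj' => ?_) a).trans ?_
    · refine (hlink _ _ t _ (le_trans (by norm_num) (le_trans (Nat.le_add_left 10 _) ht)) (P.sig_zero u hj) (P.sig_step hu j)).trans
        (add_le_add le_rfl (le_trans ?_ ht2))
      refine mul_le_mul_of_nonneg_right ?_ (by positivity)
      exact_mod_cast Nat.succ_le_succ (P.KK_le j hj')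
    · change 4 * (1 - κ ^ ((10 * L + 1) ^ d * (10 * L + 1) ^ d + 4 * d * 2 ^ b)) ^ t + _ ≤ _
      linarith
  have s0 : 0 < P.s := by
    have := P.facts
    omega
  have s0' : (0 : ℝ) < P.s := by exact_mod_cast s0
  have b0' : (0 : ℝ) < b := by exact_mod_cast b0
  have x1 : (0 : ℝ) ≤ (4 * d) ^ ((d + 4 * P.ρ) * P.s + 1) := by positivity
  have d0 : (0 : ℝ) ≤ d := Nat.cast_nonneg d
  refine ⟨P.s / (6 * b * (11 * P.s) ^ d), by positivity,
    2 * d + (4 * d) ^ ((d + 4 * P.ρ) * P.s + 1) + 3, by linarith, fun ε' hε' => ?_⟩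
  obtain ⟨K, hK⟩ := exists_nat_ge ((2 * d + P.s + 1) / ε')
  have K0 : (0 : ℝ) < K := lt_of_lt_of_le (by positivity) hK
  have K1 : 1 ≤ K := by exact_mod_cast K0
  refine ⟨P.Lam K, P.II K, P.RR K, P.s * K,
    ⟨0, self_mem_box _ _⟩, P.nbr_subset K, ?_, P.II_RR_sep K1, fun X a hX ha => ?_⟩
  · have h1 : ((P.RR K).card : ℝ) * (2 * (P.s * (3 * K + 5)) + 1) ≤
        (2 * d + P.s + 1) * (P.Lam K).card := by exact_mod_cast P.card_RR K
    rw [div_le_iff₀ hε'] at hK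
    have h2 : (K : ℝ) ≤ 2 * (P.s * (3 * K + 5)) + 1 := by
      have : (1 : ℝ) ≤ P.s := by exact_mod_cast s0
      nlinarith
    refine le_of_mul_le_mul_right (a := (K : ℝ)) ?_ K0
    calc ((P.RR K).card : ℝ) * K ≤ (P.RR K).card * (2 * (P.s * (3 * K + 5)) + 1) :=
          mul_le_mul_of_nonneg_left h2 (Nat.cast_nonneg _)
      _ ≤ (K * ε') * (P.Lam K).card := h1.trans (mul_le_mul_of_nonneg_right hK (Nat.cast_nonneg _))
      _ = _ := by ring
  set m := (2 * K + 1) * (P.Sl K).card with hm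
  have hm1 : (2 * K + 1) * m = (2 * K + 1) ^ d := by rw [← P.card_Sl K, hm]; ring
  have hm3 : 3 ≤ m := by
    have : (P.Sl K).card ≠ 0 := fun h => by
      have := P.card_Sl K
      rw [h, mul_zero] at this
      exact absurd this.symm (by positivity)
    exact le_trans (by omega) (Nat.le_mul_of_pos_right _ (Nat.pos_of_ne_zero this))
  have h1 := hPr_rk_le P (π := π) (ε := ε) (fun _ => rfl) hX (by linarith) (by linarith)
    (P.Pr_forall_Bad_le (by norm_num) (by norm_num) hBad) (le_of_eq (by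
      change (1 : ℝ) = ((2 ^ b : ℕ) : ℝ) * (1 / 64) ^ (4 * (d + 4 * ρ + 11) ^ d)
      push_cast
      rw [hb, pow_mul, ← mul_pow]; norm_num)) K1 (m / b)
  rw [← hm, show {ω : Om d | rk (P.Lam K) (P.II K) (P.RR K) (op (orMap ω)) _ ≤ m / b} =
    {ω | orMap ω ∈ {ω | rk (P.Lam K) (P.II K) (P.RR K) (op ω) _ ≤ m / b}} from rfl,
    Pr_orMap π (fun _ => p) hπ (A := {ω | rk (P.Lam K) (P.II K) (P.RR K) (op ω) _ ≤ m / b})
      ((locF_rk _ _ _ _).loc {n | n ≤ m / b})] at h1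
  have h2 := le_integral_of_Pr _ (locF_rk _ _ _ _) (m / b) (h1.trans (by
    change 4 * ((2 ^ b : ℕ) : ℝ) ^ (m / b) * (1 / 4) ^ m ≤ 1 / 2
    push_cast
    rw [← pow_mul]
    have g1 : (2 : ℝ) ^ (b * (m / b)) ≤ 2 ^ m := pow_le_pow_right₀ (by norm_num) (Nat.mul_div_le m b)
    have g2 : (2 : ℝ) ^ m * (1 / 4) ^ m = (1 / 2) ^ m := by rw [← mul_pow]; norm_num
    have g3 : (1 / 2 : ℝ) ^ m ≤ (1 / 2) ^ 3 := pow_le_pow_of_le_one (by norm_num) (by norm_num) hm3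
    have g4 := mul_le_mul_of_nonneg_right g1 (show (0 : ℝ) ≤ (1 / 4) ^ m by positivity)
    linarith))
  have h3 : (m : ℝ) ≤ b * ((m / b : ℕ) + 1) := by exact_mod_cast (Nat.lt_mul_div_succ m b0).le
  have h4 : ((P.Lam K).card : ℝ) ≤ (11 * P.s) ^ d * ((2 * K + 1) * m) := by
    have : (P.Lam K).card ≤ (11 * P.s) ^ d * ((2 * K + 1) * m) := by
      rw [hm1, ← mul_pow, Par.Lam, card_box]
      exact Nat.pow_le_pow_left (by nlinarith) _
    exact_mod_cast this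
  have K1' : (1 : ℝ) ≤ K := by exact_mod_cast K1
  refine le_trans ?_ (mul_le_mul_of_nonneg_left h2 (Nat.cast_nonneg _))
  rw [div_mul_eq_mul_div, div_le_iff₀ (by positivity)]
  calc (P.s : ℝ) * (P.Lam K).card ≤ P.s * ((11 * P.s) ^ d * ((3 * K) * (b * ((m / b : ℕ) + 1)))) := by
        refine mul_le_mul_of_nonneg_left (h4.trans (mul_le_mul_of_nonneg_left
          (mul_le_mul (by linarith) h3 (Nat.cast_nonneg _) (by positivity)) (by positivity))) s0'.le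
    _ = _ := by push_cast; ring

end Pool.Agent.P.MP_d74cc6_pr.H
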