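import Pool.Agent.P.MP_d74cc6_pr.Spectral2
import Pool.Agent.P.MP_d74cc6_pr.H.Op

/-! Moments of the operator with a random stationary potential and the trace bound. -/

open Matrix MeasureTheory Filter Topology

namespace Pool.Agent.P.MP_d74cc6_pr.H

variable {d : ℕ}

open Classical in
/-- the operator on the whole lattice -/
noncomputable def Hinf (O : Sym2 (V d) → Prop) (u : V d → ℕ → ℝ) (g : V d → ℝ) (x : V d) : ℝ :=
  u x (dg (nbr x) O x) * g x + ∑ z ∈ nbr x, if O s(x, z) then g z else 0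

/-- matrix entries of the powers -/
noncomputable def hN (O : Sym2 (V d) → Prop) (u : V d → ℕ → ℝ) (k : ℕ) (x y : V d) : ℝ :=
  (Hinf O u)^[k] (Pi.single y 1) x

theorem hN_zero (O : Sym2 (V d) → Prop) (u : V d → ℕ → ℝ) (x y : V d) :
    hN O u 0 x y = if x = y then 1 else 0 := by
  simp [hN, Pi.single_apply]

open Classical in
theorem hN_succ (O : Sym2 (V d) → Prop) (u : V d → ℕ → ℝ) (k : ℕ) (x y : V d) :
    hN O u (k + 1) x y = u x (dg (nbr x) O x) * hN O u k x y +
      ∑ z ∈ nbr x, if O s(x, z) then hN O u k z y else 0 := by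
  rw [hN, Function.iterate_succ_apply']
  rfl

theorem dg_nbr {Λ : Finset (V d)} (O : Sym2 (V d) → Prop) {x : V d} (h : nbr x ⊆ Λ) :
    dg Λ O x = dg (nbr x) O x := by
  classical
  unfold dg
  congr 1
  ext z
  simp only [Finset.mem_filter]
  exact and_congr_left fun hz => iff_of_true (h (mem_nbr.2 hz.1)) (mem_nbr.2 hz.1)

theorem dg_le (O : Sym2 (V d) → Prop) (x : V d) : dg (nbr x) O x ≤ 2 * d := by
  classical
  exact (Finset.card_filter_le _ _).trans (card_nbr_le x)

theorem AU_pow (W : Finset (V d)) (O : Sym2 (V d) → Prop) (u : V d → ℕ → ℝ) (k : ℕ) (x y : W)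
    (h : box x.1 k ⊆ W) : (AU W O u ^ k) x y = hN O u k x y := by
  classical
  induction k generalizing x with
  | zero => simp only [pow_zero, hN_zero, one_apply, Subtype.ext_iff (a1 := x)]
  | succ k ih =>
    have hb : ∀ z, (lat d).Adj x z → box z k ⊆ W := fun z hz =>
      (box_subset fun i => by have := abs_sub_le_one_of_adj hz i; push_cast; omega).trans h
    have hn : nbr x.1 ⊆ W := fun z hz => hb z (mem_nbr.1 hz) (self_mem_box _ _)
    rw [pow_succ', hN_succ]
    conv_lhs => rw [show AU W O u * AU W O u ^ k = AM W O * AU W O u ^ k +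
      (diagonal fun x : W => u x (dg W O x)) * AU W O u ^ k from add_mul _ _ _]
    rw [Matrix.add_apply, diagonal_mul, add_comm, dg_nbr O hn,
      ih x ((box_mono _ (Nat.le_succ k)).trans h), mul_apply]
    congr 1
    have h1 : ∀ z : W, AM W O x z * (AU W O u ^ k) z y =
        if (OG O).Adj x z then hN O u k z y else 0 := fun z => by
      unfold AM
      split_ifs with hz
      · rw [one_mul]; exact ih z (hb z hz.1)
      · rw [zero_mul]
    rw [Finset.sum_congr rfl fun z _ => h1 z,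
      Finset.sum_coe_sort W fun z => if (OG O).Adj x z then hN O u k z y else 0,
      ← Finset.sum_filter, ← Finset.sum_filter]
    refine Finset.sum_congr ?_ fun _ _ => rfl
    ext z
    simp only [Finset.mem_filter, mem_nbr]
    exact ⟨fun h => h.2, fun h => ⟨hb z h.1 (self_mem_box _ _), h⟩⟩

theorem nbr_shift (a x z : V d) : z ∈ nbr x ↔ z + a ∈ nbr (x + a) := by
  simp only [mem_nbr, lat_adj]
  refine exists_congr fun i => or_congr ?_ ?_
  · rw [add_right_comm, add_left_inj]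
  · rw [add_sub_right_comm, add_left_inj]

theorem dg_shift (O : Sym2 (V d) → Prop) (a x : V d) :
    dg (nbr x) (fun e => O (e.map (· + a))) x = dg (nbr (x + a)) O (x + a) := by
  classical
  unfold dg
  refine Finset.card_equiv (Equiv.addRight a) fun z => ?_
  simp only [Finset.mem_filter, Equiv.coe_addRight]
  refine ⟨fun h => ⟨(nbr_shift a x z).1 h.1, mem_nbr.1 ((nbr_shift a x z).1 h.1), h.2.2⟩,
    fun h => ⟨(nbr_shift a x z).2 h.1, mem_nbr.1 ((nbr_shift a x z).2 h.1), h.2.2⟩⟩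

theorem hN_shift (O : Sym2 (V d) → Prop) (u : V d → ℕ → ℝ) (a : V d) (k : ℕ) (x y : V d) :
    hN (fun e => O (e.map (· + a))) (fun z => u (z + a)) k x y = hN O u k (x + a) (y + a) := by
  classical
  induction k generalizing x with
  | zero => simp [hN_zero]
  | succ k ih =>
    rw [hN_succ, hN_succ, dg_shift, ih]
    congr 1
    refine Finset.sum_equiv (Equiv.addRight a) (fun z => nbr_shift a x z) fun z _ => ?_
    simp only [Sym2.map_mk, Equiv.coe_addRight, ih]

theorem locF_hN (u : V d → ℕ → ℝ) (k : ℕ) (x : V d) :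
    LocF fun ω : Sym2 (V d) → Bool => hN (op ω) u k x x := by
  have := (locF_AU (box x k) u).comp fun M =>
    (M ^ k) ⟨x, self_mem_box x k⟩ ⟨x, self_mem_box x k⟩
  simpa only [AU_pow (box x k) _ u k ⟨x, self_mem_box x k⟩ _ subset_rfl] using this

theorem int_hN (p : unitInterval) (u : V d → ℕ → ℝ) (k : ℕ) (x : V d) :
    ∫ ω, hN (op ω) u k x x ∂PM (fun _ => p) =
      ∫ ω, hN (op ω) (fun z => u (z + x)) k (0 : V d) 0 ∂PM fun _ => p := by
  have := integral_comp_inj (fun _ : Sym2 (V d) => p) (φ := Sym2.map (· + x))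
    (Sym2.map.injective (add_left_injective x)) (locF_hN (fun z => u (z + x)) k (0 : V d))
  rw [← this]
  congr 1
  ext ω
  have := hN_shift (op ω) u x k 0 0
  rw [zero_add] at this
  exact this.symm

theorem hN_bound (O : Sym2 (V d) → Prop) {u : V d → ℕ → ℝ} {B : ℝ} (hu : ∀ x n, |u x n| ≤ B)
    (k : ℕ) (x y : V d) : |hN O u k x y| ≤ (B + 2 * d) ^ k := by
  classical
  have hB : 0 ≤ B := (abs_nonneg _).trans (hu 0 0)
  induction k generalizing x with
  | zero => rw [hN_zero]; split_ifs <;> simp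
  | succ k ih =>
    rw [hN_succ, pow_succ', add_mul]
    refine (abs_add_le _ _).trans (add_le_add ?_ ?_)
    · rw [abs_mul]
      exact mul_le_mul (hu _ _) (ih x) (abs_nonneg _) hB
    · refine (Finset.abs_sum_le_sum_abs _ _).trans ((Finset.sum_le_card_nsmul _ _
        ((B + 2 * d) ^ k) fun z _ => ?_).trans ?_)
      · split_ifs
        · exact ih z
        · rw [abs_zero]; positivity
      · rw [nsmul_eq_mul]
        refine mul_le_mul_of_nonneg_right ?_ (by positivity)
        exact_mod_cast card_nbr_le x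

theorem meas_hN (f : ℕ → ℝ) (k : ℕ) (x y : V d) :
    Measurable fun q : (V d → ℝ) × (Sym2 (V d) → Bool) =>
      hN (op q.2) (fun z n => q.1 z + f n) k x y := by
  classical
  induction k generalizing x with
  | zero => simp only [hN_zero]; exact measurable_const
  | succ k ih =>
    simp only [hN_succ]
    have h1 : LocF fun ω : Sym2 (V d) → Bool => f (dg (nbr x) (op ω) x) := by
      refine ⟨_, EIn_finite (insert x (nbr x)).finite_toSet, fun ω ω' h => ?_⟩
      simp only [← dg_nbr _ (Finset.subset_insert x (nbr x))]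
      rw [ag_dg (agree_op h) (Finset.mem_insert_self _ _)]
    refine ((((measurable_pi_apply x).comp measurable_fst).add
      (h1.measurable.comp measurable_snd)).mul (ih x)).add
      (Finset.measurable_sum _ fun z _ => Measurable.ite ?_ (ih z) measurable_const)
    exact measurableSet_eq_fun ((measurable_pi_apply s(x, z)).comp measurable_snd) measurable_const

/-- the shifted matrix -/
noncomputable def sp_T (W : Finset (V d)) (O : Sym2 (V d) → Prop) (u : V d → ℕ → ℝ) (lam : ℝ) :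
    Matrix W W ℝ := AU W O u - lam • 1

theorem sp_T_symm (W : Finset (V d)) (O : Sym2 (V d) → Prop) (u : V d → ℕ → ℝ) (lam : ℝ) :
    (sp_T W O u lam).IsSymm := (AU_symm W O u).sub (isSymm_one.smul lam)

theorem sp_T_bound (W : Finset (V d)) (O : Sym2 (V d) → Prop) {u : V d → ℕ → ℝ} {lam K : ℝ}
    (h : ∀ x n, 2 * d + |u x n| + |lam| ≤ K) (g : W → ℝ) :
    (sp_T W O u lam *ᵥ g) ⬝ᵥ (sp_T W O u lam *ᵥ g) ≤ K ^ 2 * (g ⬝ᵥ g) := by
  refine sp_schur (sp_T_symm W O u lam) (fun x => ?_) g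
  have h1 : ∀ y, |sp_T W O u lam x y| ≤
      AM W O x y + if x = y then |u x (dg W O x)| + |lam| else 0 := fun y => by
    by_cases e : x = y
    · subst e
      simp only [sp_T, AU, Matrix.sub_apply, Matrix.add_apply, AM_diag, diagonal_apply_eq,
        Matrix.smul_apply, one_apply_eq, smul_eq_mul, mul_one, zero_add, if_true]
      exact abs_sub _ _
    · simp [sp_T, AU, e, abs_of_nonneg (AM_nonneg W O x y)]
  refine (Finset.sum_le_sum fun y _ => h1 y).trans ?_
  rw [Finset.sum_add_distrib, Finset.sum_ite_eq, if_pos (Finset.mem_univ _)]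
  have := sum_AM_le W O x
  have := h x (dg W O x)
  linarith

theorem sp_TJD {W Λ R : Finset (V d)} (hΛ : Λ ⊆ W) (hR : ∀ x ∈ Λ, x ∉ R → nbr x ⊆ Λ)
    (O : Sym2 (V d) → Prop) (u : V d → ℕ → ℝ) (lam : ℝ) :
    sp_J W Λ * (sp_T Λ O u lam * sp_D Λ R) = sp_T W O u lam * (sp_J W Λ * sp_D Λ R) := by
  ext w x
  rw [← Matrix.mul_assoc, ← Matrix.mul_assoc, sp_D, mul_diagonal, mul_diagonal]
  split_ifs with hx
  · simp
  rw [mul_one, mul_one, sp_mul_J hΛ]
  have := sp_J_mulVec (W := W) (fun z => sp_T Λ O u lam z x) w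
  refine Eq.trans this ?_
  have e : dg W O x = dg Λ O x := by
    rw [dg_nbr O (hR x x.2 hx), dg_nbr O ((hR x x.2 hx).trans hΛ)]
  split_ifs with hw
  · by_cases h : w.1 = x.1
    · simp [sp_T, AU, AM, one_apply, diagonal_apply, Subtype.ext_iff, h, e]
    · simp [sp_T, AU, AM, one_apply, Subtype.ext_iff, h]
  · have h1 : ¬(OG O).Adj w x := fun h => hw (hR x x.2 hx (mem_nbr.2 h.1.symm))
    have h2 : w.1 ≠ x.1 := fun h => hw (h ▸ x.2)
    simp [sp_T, AU, AM, one_apply, Subtype.ext_iff, h1, h2]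

theorem sp_ker_le (Λ R : Finset (V d)) (O : Sym2 (V d) → Prop) (u : V d → ℕ → ℝ) (lam : ℝ) :
    Module.finrank ℝ (LinearMap.ker (sp_T Λ O u lam * sp_D Λ R)ᵀ.mulVecLin) ≤
      Module.finrank ℝ (eigSp Λ R O u lam) + 2 * R.card := by
  set K := LinearMap.ker (sp_T Λ O u lam * sp_D Λ R)ᵀ.mulVecLin with hK
  set φ : (Λ → ℝ) →ₗ[ℝ] (R → ℝ) × (R → ℝ) :=
    (sp_J R Λ).mulVecLin.prod (sp_J R Λ * sp_T Λ O u lam).mulVecLin with hφ
  have h1 := Submodule.finrank_sup_add_finrank_inf_eq K (LinearMap.ker φ)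
  have h2 := LinearMap.finrank_range_add_finrank_ker φ
  have h3 := Submodule.finrank_le (K ⊔ LinearMap.ker φ)
  have h4 := Submodule.finrank_le (LinearMap.range φ)
  rw [Module.finrank_prod, Module.finrank_fintype_fun_eq_card, Fintype.card_coe] at h4
  have h5 : K ⊓ LinearMap.ker φ ≤ eigSp Λ R O u lam := by
    rintro g ⟨g1, g2⟩
    have a1 : sp_D Λ R *ᵥ (sp_T Λ O u lam *ᵥ g) = 0 := by
      have : (sp_T Λ O u lam * sp_D Λ R)ᵀ *ᵥ g = 0 := g1
      rwa [transpose_mul, sp_T_symm, sp_D, diagonal_transpose, ← mulVec_mulVec] at this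
    have a2 : sp_J R Λ *ᵥ g = 0 := congrArg Prod.fst g2
    have a3 : sp_J R Λ *ᵥ (sp_T Λ O u lam *ᵥ g) = 0 := by
      rw [mulVec_mulVec]; exact congrArg Prod.snd g2
    have a4 : ∀ f : Λ → ℝ, sp_J R Λ *ᵥ f = 0 → ∀ x : Λ, x.1 ∈ R → f x = 0 := fun f hf x hx => by
      have := sp_J_mulVec (W := R) f ⟨x, hx⟩
      rw [hf, dif_pos x.2] at this
      exact this.symm
    refine ⟨?_, a4 g a2⟩
    have a5 : sp_T Λ O u lam *ᵥ g = 0 := by
      ext x
      by_cases hx : x.1 ∈ R
      · exact a4 _ a3 x hx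
      · simpa [sp_D, mulVec_diagonal, hx] using congrFun a1 x
    rwa [sp_T, sub_mulVec, smul_mulVec, one_mulVec, sub_eq_zero] at a5
  have h6 := Submodule.finrank_mono h5
  omega

/-- the deterministic bound -/
theorem sp_det {W Λ R : Finset (V d)} (hΛ : Λ ⊆ W) (hR : ∀ x ∈ Λ, x ∉ R → nbr x ⊆ Λ)
    (O : Sym2 (V d) → Prop) {u : V d → ℕ → ℝ} {lam K : ℝ} (hK : 0 < K)
    (h : ∀ x n, 2 * d + |u x n| + |lam| ≤ K) (k : ℕ) :
    ∑ x : Λ, ((1 - (K ^ 2)⁻¹ • (sp_T W O u lam * sp_T W O u lam)) ^ k)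
        ⟨x, hΛ x.2⟩ ⟨x, hΛ x.2⟩ ≤ Module.finrank ℝ (eigSp Λ R O u lam) + 2 * R.card +
      K ^ 2 / (k + 1) * (sp_trace (sp_T Λ O u lam * sp_D Λ R)).choose := by
  obtain ⟨h1, h2⟩ := sp_pow (sp_T_symm W O u lam) (by positivity) (sp_T_bound W O h) k
  set B := (1 - (K ^ 2)⁻¹ • (sp_T W O u lam * sp_T W O u lam)) ^ k
  have ha : (0 : ℝ) ≤ K ^ 2 / (k + 1) := by positivity
  have := (sp_trace (sp_T Λ O u lam * sp_D Λ R)).choose_spec ((sp_J W Λ)ᵀ * B * sp_J W Λ) _ ha
    (fun u => by rw [sp_dot_tr, ← sp_J_dot hΛ u]; exact h1 _) fun g => by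
      rw [sp_dot_tr, mulVec_mulVec, sp_TJD hΛ hR, ← mulVec_mulVec, ← mulVec_mulVec]
      refine (h2 _).trans (mul_le_mul_of_nonneg_left ?_ ha)
      rw [sp_J_dot hΛ]
      exact sp_D_dot Λ R g
  have h3 : ((sp_J W Λ)ᵀ * B * sp_J W Λ).trace = ∑ x : Λ, B ⟨x, hΛ x.2⟩ ⟨x, hΛ x.2⟩ :=
    Finset.sum_congr rfl fun x _ => by rw [diag_apply, sp_mul_J hΛ, sp_J_mul hΛ]
  have h4 : (Module.finrank ℝ (LinearMap.ker (sp_T Λ O u lam * sp_D Λ R)ᵀ.mulVecLin) : ℝ) ≤
      Module.finrank ℝ (eigSp Λ R O u lam) + 2 * R.card := by exact_mod_cast sp_ker_le Λ R O u lam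
  linarith

theorem sp_one_le {W : Finset (V d)} (O : Sym2 (V d) → Prop) {u : V d → ℕ → ℝ} {lam K : ℝ}
    (hK : 0 < K) (h : ∀ x n, 2 * d + |u x n| + |lam| ≤ K) (k : ℕ) (x : W) :
    ((1 - (K ^ 2)⁻¹ • (sp_T W O u lam * sp_T W O u lam)) ^ k) x x ≤ 1 := by
  have := (sp_pow (sp_T_symm W O u lam) (by positivity) (sp_T_bound W O h) k).1 (Pi.single x 1)
  simpa using this

theorem dom_le {Ω : Type*} [MeasurableSpace Ω] {Q : Measure Ω} [IsProbabilityMeasure Q]
    {g : ℕ → Ω → ℝ} {A M r : ℝ} (hg : ∀ k, Integrable (g k) Q) (hM : ∀ k, ∀ᵐ W ∂Q, g k W ≤ M)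
    (hA : ∀ᵐ W ∂Q, ∃ C : ℝ, ∀ k, g k W ≤ A + C / (k + 1)) (hr : ∀ k, r ≤ ∫ W, g k W ∂Q) :
    r ≤ A := by
  have hi : ∀ k, Integrable (fun W => max (g k W - A) 0) Q := fun k =>
    ((hg k).sub (integrable_const A)).pos_part
  have h1 : Tendsto (fun k => ∫ W, max (g k W - A) 0 ∂Q) atTop (𝓝 (∫ _W, (0 : ℝ) ∂Q)) := by
    refine tendsto_integral_of_dominated_convergence (fun _ => |M - A|)
      (fun k => (hi k).aestronglyMeasurable) (integrable_const _) (fun k => ?_) ?_
    · filter_upwards [hM k] with W hW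
      rw [Real.norm_eq_abs, abs_of_nonneg (le_max_right _ _)]
      exact max_le (le_trans (by linarith) (le_abs_self _)) (abs_nonneg _)
    · filter_upwards [hA] with W ⟨C, hC⟩
      have lim := (tendsto_const_div_atTop_nhds_zero_nat |C|).comp (tendsto_add_atTop_nat 1)
      refine squeeze_zero (fun k => le_max_right _ _) (fun k => ?_) lim
      have h2 : C / (k + 1) ≤ |C| / (k + 1) :=
        div_le_div_of_nonneg_right (le_abs_self C) (by positivity)
      have h3 := hC k
      simp only [Function.comp_apply, Nat.cast_add, Nat.cast_one]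
      exact max_le (by linarith) (by positivity)
  rw [integral_zero] at h1
  have h2 := ge_of_tendsto' (h1.const_add A) fun k => show r ≤ _ from (hr k).trans (by
    have := integral_mono (hg k) ((integrable_const A).add (hi k)) fun W => by
      have := le_max_left (g k W - A) 0
      simp only [Pi.add_apply]
      linarith
    simp only [Pi.add_apply] at this
    rwa [integral_add (integrable_const A) (hi k), integral_const, probReal_univ, one_smul] at this)
  simpa using h2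

section Main

variable {p : unitInterval} {μ : Measure ℝ} [IsProbabilityMeasure μ] {b F B : ℝ} {f : ℕ → ℝ}
  {Q : Measure (V d → ℝ)} [IsProbabilityMeasure Q]

theorem sp_int_pow (hsupp : μ (Set.Icc (-b) b)ᶜ = 0) (i : ℕ) :
    Integrable (fun t : ℝ => t ^ i) μ := by
  refine (integrable_const (b ^ i)).mono' (by fun_prop) ?_
  filter_upwards [mem_ae_iff.2 hsupp] with t ht
  rw [norm_pow]
  exact pow_le_pow_left₀ (norm_nonneg _) (abs_le.2 ht) i

theorem sp_int_eval (hsupp : μ (Set.Icc (-b) b)ᶜ = 0) (P : Polynomial ℝ) :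
    Integrable (fun t : ℝ => P.eval t) μ := by
  simp only [Polynomial.eval_eq_sum_range]
  exact integrable_finsetSum _ fun i _ => (sp_int_pow hsupp i).const_mul _

/-- the moments for a fixed potential -/
noncomputable def mom (p : unitInterval) (f : ℕ → ℝ) (k : ℕ) (x : V d) (W : V d → ℝ) : ℝ :=
  ∫ ω, hN (op ω) (fun z n => W z + f n) k x x ∂PM fun _ => p

theorem meas_mom (p : unitInterval) (f : ℕ → ℝ) (k : ℕ) (x : V d) :
    StronglyMeasurable (mom p f k x) :=
  (meas_hN f k x x).stronglyMeasurable.integral_prod_right'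

theorem int_mom (hf : ∀ n, |f n| ≤ F) (hB : ∀ᵐ W ∂Q, ∀ x, |W x| ≤ B) (k : ℕ) (x : V d) :
    Integrable (mom p f k x) Q := by
  refine Integrable.of_bound (meas_mom p f k x).aestronglyMeasurable ((B + F + 2 * d) ^ k) ?_
  filter_upwards [hB] with W hW
  have := norm_integral_le_of_norm_le_const (μ := PM fun _ : Sym2 (V d) => p)
    (f := fun ω => hN (op ω) (fun z n => W z + f n) k x x) (C := (B + F + 2 * d) ^ k)
    (Eventually.of_forall fun ω => hN_bound _
      (fun z n => (abs_add_le _ _).trans (add_le_add (hW z) (hf n))) k x x)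
  simpa [mom] using this

omit [IsProbabilityMeasure Q] in
theorem mom_shift (hQ : ∀ a, Q.map (fun W x => W (x + a)) = Q) (k : ℕ) (x : V d) :
    ∫ W, mom p f k x W ∂Q = ∫ W, mom p f k 0 W ∂Q := by
  conv_rhs => rw [← hQ x]
  rw [integral_map (measurable_pi_lambda _ fun z => measurable_pi_apply (z + x)).aemeasurable
    (meas_mom p f k 0).aestronglyMeasurable]
  exact integral_congr_ae (Eventually.of_forall fun W => int_hN p _ k x)

/-- the average of a polynomial of the operator -/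
noncomputable def pol (p : unitInterval) (f : ℕ → ℝ) (P : Polynomial ℝ) (x : V d) (W : V d → ℝ) :
    ℝ := ∑ i ∈ Finset.range (P.natDegree + 1), P.coeff i * mom p f i x W

theorem int_pol (hf : ∀ n, |f n| ≤ F) (hB : ∀ᵐ W ∂Q, ∀ x, |W x| ≤ B) (P : Polynomial ℝ)
    (x : V d) : Integrable (pol p f P x) Q :=
  integrable_finsetSum _ fun i _ => (int_mom hf hB i x).const_mul _

theorem pol_eq (P : Polynomial ℝ) {Λ : Finset (V d)} {x : V d} (h : x ∈ Λ)
    (hx : box x P.natDegree ⊆ Λ) (W : V d → ℝ) : pol p f P x W = ∫ ω,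
      (Polynomial.aeval (AU Λ (op ω) fun z n => W z + f n) P) ⟨x, h⟩ ⟨x, h⟩ ∂PM fun _ => p := by
  have h1 : ∀ ω : Sym2 (V d) → Bool,
      (Polynomial.aeval (AU Λ (op ω) fun z n => W z + f n) P) ⟨x, h⟩ ⟨x, h⟩ =
      ∑ i ∈ Finset.range (P.natDegree + 1), P.coeff i * hN (op ω) (fun z n => W z + f n) i x x :=
    fun ω => by
    rw [Polynomial.aeval_eq_sum_range, Matrix.sum_apply]
    refine Finset.sum_congr rfl fun i hi => ?_
    rw [Matrix.smul_apply, smul_eq_mul, AU_pow Λ _ _ i ⟨x, h⟩ ⟨x, h⟩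
      ((box_mono _ (Nat.lt_succ_iff.1 (Finset.mem_range.1 hi))).trans hx)]
  simp only [h1]
  rw [integral_finsetSum _ fun i _ => ((locF_hN _ i x).integrable _).const_mul _]
  exact Finset.sum_congr rfl fun i _ => (integral_const_mul _ _).symm

theorem sp_poly (hsupp : μ (Set.Icc (-b) b)ᶜ = 0) (hf : ∀ n, |f n| ≤ F)
    (hQ : ∀ a, Q.map (fun W x => W (x + a)) = Q) (hB : ∀ᵐ W ∂Q, ∀ x, |W x| ≤ B)
    (hmom : ∀ k : ℕ, ∫ t, t ^ k ∂μ = ∫ W, mom p f k 0 W ∂Q) (P : Polynomial ℝ) (x : V d) :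
    ∫ t, P.eval t ∂μ = ∫ W, pol p f P x W ∂Q := by
  simp only [pol, Polynomial.eval_eq_sum_range]
  rw [integral_finsetSum _ fun i _ => (sp_int_pow hsupp i).const_mul _,
    integral_finsetSum _ fun i _ => (int_mom hf hB i x).const_mul _]
  refine Finset.sum_congr rfl fun i _ => ?_
  rw [integral_const_mul, integral_const_mul, hmom, mom_shift hQ i x]

theorem spectral (hsupp : μ (Set.Icc (-b) b)ᶜ = 0) (hf : ∀ n, |f n| ≤ F)
    (hQ : ∀ a, Q.map (fun W x => W (x + a)) = Q) (hB : ∀ᵐ W ∂Q, ∀ x, |W x| ≤ B)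
    (hmom : ∀ k : ℕ, ∫ t, t ^ k ∂μ = ∫ W, mom p f k 0 W ∂Q)
    {Λ R : Finset (V d)} (hR : ∀ x ∈ Λ, x ∉ R → nbr x ⊆ Λ) (S₀ : Finset ℝ) {A : ℝ}
    (hA : ∀ W : V d → ℝ, (∀ x, |W x| ≤ B) → ∫ ω, ∑ lam ∈ S₀, (Module.finrank ℝ
      (eigSp Λ R (op ω) (fun z n => W z + f n) lam) : ℝ) ∂(PM fun _ => p) ≤ A) :
    Λ.card * μ.real S₀ ≤ A + 2 * S₀.card * R.card := by
  classical
  obtain ⟨L, hL⟩ := (S₀.image fun t => |t|).bddAbove
  have hL' : ∀ lam ∈ S₀, |lam| ≤ |L| := fun lam h =>
    (hL (Finset.mem_coe.2 (Finset.mem_image_of_mem _ h))).trans (le_abs_self L)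
  set K : ℝ := 2 * d + |B| + |F| + |L| + |b| + 1 with hKe
  have hK : 0 < K := by positivity
  have hKu : ∀ W : V d → ℝ, (∀ x, |W x| ≤ B) → ∀ lam ∈ S₀, ∀ (x : V d) (n : ℕ),
      2 * d + |W x + f n| + |lam| ≤ K := fun W hW lam h x n => by
    have := abs_add_le (W x) (f n)
    linarith [hW x, hf n, hL' lam h, le_abs_self B, le_abs_self F, abs_nonneg b]
  obtain ⟨P, hP⟩ : ∃ P : ℝ → ℕ → Polynomial ℝ, ∀ lam k, P lam k = (1 - (K ^ 2)⁻¹ •
      ((Polynomial.X - Polynomial.C lam) * (Polynomial.X - Polynomial.C lam))) ^ k :=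
    ⟨_, fun _ _ => rfl⟩
  obtain ⟨Y, hY⟩ : ∃ Y : ℝ → ℕ → Finset (V d), ∀ lam k, ∀ x ∈ Λ,
      box x (P lam k).natDegree ⊆ Y lam k :=
    ⟨fun lam k => Λ.biUnion fun x => box x (P lam k).natDegree, fun lam k x hx =>
      Finset.subset_biUnion_of_mem (fun x => box x (P lam k).natDegree) hx⟩
  have hΛ : ∀ lam k, Λ ⊆ Y lam k := fun lam k x hx => hY lam k x hx (self_mem_box _ _)
  have h2 : ∀ lam k (O : Sym2 (V d) → Prop) (u : V d → ℕ → ℝ),
      Polynomial.aeval (AU (Y lam k) O u) (P lam k) =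
        (1 - (K ^ 2)⁻¹ • (sp_T (Y lam k) O u lam * sp_T (Y lam k) O u lam)) ^ k :=
    fun lam k O u => by simp [hP, sp_T, Algebra.algebraMap_eq_smul_one]
  have hLoc : ∀ lam k (u : V d → ℕ → ℝ) (x : Y lam k), LocF fun ω : Sym2 (V d) → Bool =>
      (Polynomial.aeval (AU (Y lam k) (op ω) u) (P lam k)) x x := fun lam k u x =>
    (locF_AU _ u).comp fun M => (Polynomial.aeval M (P lam k)) x x
  refine dom_le (Q := Q) (g := fun k W => ∑ lam ∈ S₀, ∑ x : Λ, pol p f (P lam k) x W)
    (M := S₀.card * Λ.card) (fun k => integrable_finsetSum _ fun lam _ =>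
      integrable_finsetSum _ fun x _ => int_pol hf hB _ _) (fun k => ?_) ?_ fun k => ?_
  · filter_upwards [hB] with W hW
    refine (Finset.sum_le_card_nsmul _ _ (Λ.card : ℝ) fun lam hlam => ?_).trans (by simp)
    refine (Finset.sum_le_card_nsmul _ _ (1 : ℝ) fun x _ => ?_).trans (by simp)
    rw [pol_eq (P lam k) (hΛ lam k x.2) (hY lam k x x.2)]
    refine (integral_mono ((hLoc lam k _ _).integrable _) (integrable_const 1) fun ω => ?_).trans
      (by simp)
    simp only [h2]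
    exact sp_one_le _ hK (hKu W hW lam hlam) k _
  · filter_upwards [hB] with W hW
    set u : V d → ℕ → ℝ := fun z n => W z + f n with hu
    have hE : ∀ lam, LocF fun ω : Sym2 (V d) → Bool =>
        (Module.finrank ℝ (eigSp Λ R (op ω) u lam) : ℝ) := fun lam =>
      (locF_eigSp Λ R u lam).comp fun S => (Module.finrank ℝ S : ℝ)
    have hC : ∀ lam, LocF fun ω : Sym2 (V d) → Bool =>
        (sp_trace (sp_T Λ (op ω) u lam * sp_D Λ R)).choose := fun lam =>
      (locF_AU Λ u).comp fun M => (sp_trace ((M - lam • 1) * sp_D Λ R)).choose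
    refine ⟨∑ lam ∈ S₀, K ^ 2 *
      ∫ ω, (sp_trace (sp_T Λ (op ω) u lam * sp_D Λ R)).choose ∂PM fun _ => p, fun k => ?_⟩
    have h3 := hA W hW
    rw [integral_finsetSum _ fun lam _ => (hE lam).integrable _] at h3
    have h4 : ∀ lam ∈ S₀, ∑ x : Λ, pol p f (P lam k) x W ≤
        (∫ ω, (Module.finrank ℝ (eigSp Λ R (op ω) u lam) : ℝ) ∂PM fun _ => p) + 2 * R.card +
        (K ^ 2 * ∫ ω, (sp_trace (sp_T Λ (op ω) u lam * sp_D Λ R)).choose ∂PM fun _ => p) /
          (k + 1) := fun lam hlam => by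
      rw [Finset.sum_congr rfl fun (x : Λ) _ => pol_eq (P lam k) (hΛ lam k x.2) (hY lam k x x.2) W,
        ← integral_finsetSum _ fun x _ => (hLoc lam k _ _).integrable _]
      refine (integral_mono ((LocF.sum _ fun x _ => hLoc lam k _ _).integrable _)
        (g := fun ω => (Module.finrank ℝ (eigSp Λ R (op ω) u lam) : ℝ) + 2 * R.card +
          K ^ 2 / (k + 1) * (sp_trace (sp_T Λ (op ω) u lam * sp_D Λ R)).choose)
        ((((hE lam).integrable _).add (integrable_const _)).add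
          (((hC lam).integrable _).const_mul _)) fun ω => ?_).trans (le_of_eq ?_)
      · simp only [h2]
        exact sp_det (hΛ lam k) hR (op ω) hK (hKu W hW lam hlam) k
      · rw [integral_add (((hE lam).comp (· + 2 * (R.card : ℝ))).integrable _)
          (((hC lam).integrable _).const_mul _),
          integral_add ((hE lam).integrable _) (integrable_const _),
          integral_const_mul (K ^ 2 / (k + 1))]
        simp only [integral_const, probReal_univ, one_smul]
        ring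
    refine (Finset.sum_le_sum h4).trans ?_
    rw [Finset.sum_add_distrib, Finset.sum_add_distrib, Finset.sum_const, nsmul_eq_mul,
      ← Finset.sum_div]
    linarith
  · rw [integral_finsetSum _ fun lam _ => integrable_finsetSum _ fun x _ => int_pol hf hB _ _,
      ← sum_measureReal_singleton, Finset.mul_sum]
    refine Finset.sum_le_sum fun lam hlam => ?_
    rw [integral_finsetSum _ fun x _ => int_pol hf hB _ _]
    have h1 : μ.real {lam} ≤ ∫ t, (P lam k).eval t ∂μ := by
      rw [← integral_indicator_one (measurableSet_singleton lam)]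
      refine integral_mono_ae ((integrable_const _).indicator (measurableSet_singleton lam))
        (sp_int_eval hsupp _) ?_
      filter_upwards [mem_ae_iff.2 hsupp] with t ht
      have e : (P lam k).eval t = (1 - (K ^ 2)⁻¹ * ((t - lam) * (t - lam))) ^ k := by simp [hP]
      rw [e]
      by_cases htl : t = lam
      · subst htl; simp
      · rw [Set.indicator_of_notMem (by simpa using htl)]
        refine pow_nonneg ?_ _
        rw [sub_nonneg, inv_mul_le_iff₀ (by positivity), mul_one, ← sq]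
        obtain ⟨a1, a2⟩ := abs_le.1 (hL' lam hlam)
        have a3 : (0 : ℝ) ≤ 2 * d + |B| + |F| := by positivity
        exact sq_le_sq' (by linarith [ht.1, le_abs_self b]) (by linarith [ht.2, le_abs_self b])
    calc (Λ.card : ℝ) * μ.real {lam} = ∑ _x : Λ, μ.real {lam} := by simp
      _ ≤ _ := Finset.sum_le_sum fun x _ => h1.trans (sp_poly hsupp hf hQ hB hmom _ _).le

end Main

end Pool.Agent.P.MP_d74cc6_pr.H
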