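import Pool.Agent.P.MP_d74cc6_pr.Final1
import Pool.Agent.P.MP_d74cc6_pr.H.Rank
import Pool.Agent.P.MP_d74cc6_pr.H.Spectral
import Pool.Agent.P.MP_d74cc6_pr.H.Defs

/-! Existence of the expected spectral measure and the uniform bound for its atoms. -/

open MeasureTheory Matrix Filter

namespace Pool.Agent.P.MP_d74cc6_pr.H

variable {d : ℕ}

theorem ham_eq (O : Sym2 (V d) → Prop) (f : ℕ → ℝ) (W : V d → ℝ) :
    ham (OG O) f W = Hinf O fun z n => W z + f (min n (2 * d)) := by
  classical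
  funext g x
  have e : (OG O).neighborSet x = ((nbr x).filter fun y => (OG O).Adj x y : Finset (V d)) := by
    ext y
    simp only [SimpleGraph.mem_neighborSet, Finset.coe_filter, Set.mem_ofPred_eq]
    exact ⟨fun h => ⟨mem_nbr.2 h.1, h⟩, fun h => h.2⟩
  rw [ham, Hinf, min_eq_left (dg_le O x), e, Set.ncard_coe_finset, finsum_mem_coe_finset,
    Finset.sum_filter]
  congr 1
  exact Finset.sum_congr rfl fun y hy =>
    if_congr ⟨fun h => h.2, fun h => ⟨mem_nbr.1 hy, h⟩⟩ rfl rfl

theorem mom_eq (p : unitInterval) (f : ℕ → ℝ) (W : V d → ℝ) (k : ℕ) :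
    ∫ ω, (ham (openGraph ω) f W)^[k] (Pi.single 0 1) 0 ∂(perc d p) =
      mom p (fun n => f (min n (2 * d))) k 0 W := by
  classical
  have e : ∀ ω : Sym2 (V d) → Bool, (ham (openGraph fun a => ω (fi_phi a)) f W)^[k]
      (Pi.single 0 1) 0 = hN (op ω) (fun z n => W z + f (min n (2 * d))) k 0 0 := fun ω => by
    rw [show openGraph (fun a => ω (fi_phi a)) = OG (op ω) from fi_Gr_comp ω, ham_eq]
    rfl
  have hm : Measurable fun ω : V d × Fin d → Bool =>
      (ham (openGraph ω) f W)^[k] (Pi.single 0 1) 0 := by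
    have h1 : Measurable fun (ω : V d × Fin d → Bool) => Function.extend fi_phi ω fun _ => false :=
      measurable_pi_lambda _ fun e => by
        by_cases h : ∃ a, fi_phi a = e
        · obtain ⟨a, rfl⟩ := h
          simp only [fi_phi_inj.extend_apply]
          exact measurable_pi_apply a
        · simp only [Function.extend_apply' _ _ _ h]
          exact measurable_const
    have h2 := (locF_hN (fun z n => W z + f (min n (2 * d))) k 0).measurable.comp h1
    convert h2 using 1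
    funext ω
    rw [Function.comp_apply, ← e]
    simp only [fi_phi_inj.extend_apply]
  rw [show perc d p = _ from (PM_map_inj (fun _ : Sym2 (V d) => p) fi_phi_inj).symm, integral_map (measurable_reindex _).aemeasurable
      hm.aestronglyMeasurable]
  exact integral_congr_ae (Eventually.of_forall e)

theorem exists_Gd (f : ℕ → ℝ) (n : ℕ) (B a₀ : ℝ) : ∃ x₀ a : ℝ, a₀ ≤ a ∧ ∀ W : V d → ℝ,
    (∀ x, |W x| ≤ B) → Gd (fun x k => x₀ - (W x + f (min k n))) a := by
  obtain ⟨F, hF⟩ := ((Finset.range (n + 1)).image fun k => |f k|).bddAbove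
  have hF' : ∀ k, |f (min k n)| ≤ F := fun k => hF (Finset.mem_coe.2
    (Finset.mem_image_of_mem _ (Finset.mem_range.2 (by omega))))
  have h1 : ∀ᶠ a : ℝ in atTop, ∀ k ∈ Finset.range (n + 1), ∀ k' ∈ Finset.range (n + 1),
      f k = f k' ∨ 2 ≤ a * |f k - f k'| := by
    simp only [eventually_all_finset]
    intro k _ k' _
    by_cases h : f k = f k'
    · exact Eventually.of_forall fun _ => Or.inl h
    · exact ((tendsto_id.atTop_mul_const (abs_pos.2 (sub_ne_zero.2 h))).eventually_ge_atTop 2).mono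
        fun a ha => Or.inr ha
  obtain ⟨a, h2, h3, h4⟩ :=
    (h1.and ((eventually_ge_atTop a₀).and (eventually_ge_atTop (2 * (B + F))))).exists
  refine ⟨a + (B + F), a, h3, fun W hW => ⟨fun x k => ?_, fun x k => ?_, fun x k k' => ?_⟩⟩
  · linarith [(abs_le.1 (hW x)).2, (abs_le.1 (hF' k)).2]
  · linarith [(abs_le.1 (hW x)).1, (abs_le.1 (hF' k)).1]
  · rcases h2 (min k' n) (Finset.mem_range.2 (by omega)) (min k n)
      (Finset.mem_range.2 (by omega)) with h | h
    · exact Or.inl (by rw [h])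
    · exact Or.inr (h.trans (le_of_eq (by congr 2; ring)))

theorem eigSp_bot (k : Fin d) (n : ℕ) {O : Sym2 (V d) → Prop} (hO : ∀ e, O e)
    (u : V d → ℕ → ℝ) (lam : ℝ) :
    eigSp (box (0 : V d) (n + 1)) (box 0 (n + 1) \ box 0 n) O u lam = ⊥ := by
  classical
  rw [Submodule.eq_bot_iff]
  rintro g ⟨h1, h2⟩
  have key : ∀ t : ℕ, ∀ y : box (0 : V d) (n + 1), y.1 k ≤ t - (n + 1) → g y = 0 := by
    intro t
    induction t with
    | zero =>
      intro y hy
      refine h2 y (Finset.mem_sdiff.2 ⟨y.2, fun h => ?_⟩)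
      have := abs_le.1 (mem_box.1 h k)
      simp only [Pi.zero_apply, sub_zero] at this
      push_cast at hy
      omega
    | succ t ih =>
      intro y hy
      by_cases hR : y.1 ∈ box (0 : V d) n
      swap
      · exact h2 y (Finset.mem_sdiff.2 ⟨y.2, hR⟩)
      have hx : y.1 - ev k ∈ box (0 : V d) (n + 1) := mem_box.2 fun i => by
        have h3 := mem_box.1 hR i
        have h4 := abs_sub_le_one_of_adj (lat_adj_sub y.1 k) i
        have h5 := abs_sub_le ((y.1 - ev k) i) (y.1 i) ((0 : V d) i)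
        push_cast
        omega
      have h3 := congrFun h1 ⟨_, hx⟩
      have h4 : g ⟨_, hx⟩ = 0 := ih _ (by
        simp only [Pi.sub_apply, ev_self]
        push_cast at hy
        omega)
      rw [AU, add_mulVec, Pi.add_apply, mulVec_diagonal, Pi.smul_apply, h4, smul_zero, mul_zero,
        add_zero, Matrix.mulVec, dotProduct, Finset.sum_eq_single y ?_ (by simp)] at h3
      · have h5 : (OG O).Adj (y.1 - ev k) y.1 := ⟨(lat_adj_sub y.1 k).symm, hO _⟩
        simpa [AM, h5] using h3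
      · intro z _ hz
        by_cases h5 : AM (box (0 : V d) (n + 1)) O ⟨_, hx⟩ z = 0
        · rw [h5, zero_mul]
        rw [ih z ?_, mul_zero]
        obtain ⟨i, h6⟩ := lat_adj.1 (AM_ne_zero h5)
        push_cast at hy
        by_cases hi : k = i
        · subst hi
          rcases h6 with h6 | h6
          · exact absurd (Subtype.ext (by rw [h6]; simp)) hz
          · rw [h6]
            simp only [Pi.sub_apply, ev_self]
            omega
        · rcases h6 with h6 | h6 <;> rw [h6] <;>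
            simp only [Pi.sub_apply, Pi.add_apply, ev_self, ev_ne hi] <;> omega
  funext y
  refine key (2 * n + 2) y ?_
  have := abs_le.1 (mem_box.1 y.2 k)
  simp only [Pi.zero_apply, sub_zero] at this
  push_cast at this ⊢
  omega

theorem dim_le (hd : 2 ≤ d) {q p : unitInterval} (hqp : (q : ℝ) < p) {θ : ℝ} (hθ : 0 < θ)
    (hR : Perc d q θ) : ∃ c : ℝ, 0 < c ∧ ∀ ε : ℝ, 0 < ε →
      ∃ Λ R : Finset (V d), Λ.Nonempty ∧ (∀ x ∈ Λ, x ∉ R → nbr x ⊆ Λ) ∧
        (R.card : ℝ) ≤ ε * Λ.card ∧ ∀ (f : ℕ → ℝ) (n : ℕ) (B : ℝ) (S₀ : Finset ℝ) (W : V d → ℝ),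
        (∀ x, |W x| ≤ B) → ∫ ω, ∑ lam ∈ S₀, (Module.finrank ℝ (eigSp Λ R (op ω)
          (fun z k => W z + f (min k n)) lam) : ℝ) ∂(PM fun _ => p) ≤ (1 - c) * Λ.card := by
  classical
  rcases p.2.2.lt_or_eq with hp | hp
  · have hkl : (⟨0, by omega⟩ : Fin d) ≠ ⟨1, by omega⟩ := by simp
    obtain ⟨c, hc, a₀, ha₀, h⟩ := rank_lower hkl hqp hp hθ hR
    refine ⟨c, hc, fun ε hε => ?_⟩
    obtain ⟨Λ, I, R, ℓ, h1, h2, h3, h5, h6⟩ := h ε hε
    refine ⟨Λ, R, h1, h2, h3, fun f n B S₀ W hW => ?_⟩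
    obtain ⟨x₀, a, ha, hX⟩ := exists_Gd (d := d) f n B a₀
    have h4 := h6 _ a (hX W hW) ha
    set u : V d → ℕ → ℝ := fun z k => W z + f (min k n) with hu
    have i1 : Integrable (fun ω : Sym2 (V d) → Bool =>
        ∑ lam ∈ S₀, (Module.finrank ℝ (eigSp Λ R (op ω) u lam) : ℝ)) (PM fun _ => p) :=
      (LocF.sum S₀ fun lam _ => (locF_eigSp Λ R u lam).comp fun W =>
        (Module.finrank ℝ W : ℝ)).integrable _
    have i2 : Integrable (fun ω : Sym2 (V d) → Bool =>
        (ℓ : ℝ) * (rk Λ I R (op ω) (fun x k => x₀ - u x k) : ℝ)) (PM fun _ => p) :=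
      ((locF_rk Λ I R _).comp fun r => (ℓ : ℝ) * (r : ℝ)).integrable _
    have h7 := integral_mono (i1.add i2) (integrable_const (Λ.card : ℝ)) fun ω => by
      have := krylov (Λ := Λ) (O := op ω) (u := u) (hX W hW) (ha₀.trans_le ha) h5 S₀
      simp only [Pi.add_apply]
      exact_mod_cast this
    simp only [Pi.add_apply] at h7
    rw [integral_add i1 i2, integral_const_mul, integral_const, probReal_univ, one_smul] at h7
    linarith
  · obtain rfl : p = 1 := Subtype.ext hp
    refine ⟨1, one_pos, fun ε hε => ?_⟩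
    obtain ⟨n, hn⟩ := exists_nat_ge (d / ε)
    refine ⟨box 0 (n + 1), box 0 (n + 1) \ box 0 n, ⟨_, self_mem_box _ _⟩, fun x hx hx' y hy => ?_,
      (fi_card_shell n).trans (mul_le_mul_of_nonneg_right ?_ (Nat.cast_nonneg _)),
      fun f m B S₀ W _ => ?_⟩
    · have h1 : x ∈ box (0 : V d) n := by
        by_contra h
        exact hx' (Finset.mem_sdiff.2 ⟨hx, h⟩)
      refine mem_box.2 fun i => ?_
      have h3 := mem_box.1 h1 i
      have h4 := abs_sub_le_one_of_adj (mem_nbr.1 hy) i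
      have h5 := abs_sub_le (y i) (x i) ((0 : V d) i)
      push_cast
      omega
    · rw [div_le_iff₀ hε] at hn
      rw [div_le_iff₀ (by positivity)]
      nlinarith
    · rw [sub_self, zero_mul]
      refine le_of_eq (integral_eq_zero_of_ae (fi_ae_open.mono fun ω hω => ?_))
      refine Finset.sum_eq_zero fun lam _ => ?_
      rw [eigSp_bot ⟨0, by omega⟩ n (O := op ω) hω _ lam, finrank_bot, Nat.cast_zero]

theorem countable_le {μ : Measure ℝ} [IsProbabilityMeasure μ] {r : ℝ}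
    (h : ∀ S₀ : Finset ℝ, μ.real S₀ ≤ r) {S : Set ℝ} (hS : S.Countable) : μ.real S ≤ r := by
  classical
  obtain ⟨f, hf⟩ := Set.countable_iff_exists_subset_range.1 hS
  have hm : Monotone fun n => (((Finset.range n).image f : Finset ℝ) : Set ℝ) := fun a b hab =>
    Finset.coe_subset.2 (Finset.image_subset_image (Finset.range_mono hab))
  have h1 : S ⊆ ⋃ n, (((Finset.range n).image f : Finset ℝ) : Set ℝ) := fun x hx => by
    obtain ⟨n, rfl⟩ := hf hx
    exact Set.mem_iUnion.2 ⟨n + 1, Finset.mem_image_of_mem f (Finset.self_mem_range_succ n)⟩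
  refine ENNReal.toReal_le_of_le_ofReal (measureReal_nonneg.trans (h ∅)) ?_
  refine (measure_mono h1).trans ?_
  rw [hm.measure_iUnion]
  refine iSup_le fun n => ?_
  rw [← ofReal_measureReal]
  exact ENNReal.ofReal_le_ofReal (h _)

section Exist

/-- the first moments of a probability measure on a compact interval -/
noncomputable def mv (b : ℝ) (n : ℕ) (ν : ProbabilityMeasure (Set.Icc (-b) b)) (k : Fin n) : ℝ :=
  ∫ t, (t : ℝ) ^ (k : ℕ) ∂(ν : Measure (Set.Icc (-b) b))

theorem cont_mom (b : ℝ) (k : ℕ) : Continuous fun ν : ProbabilityMeasure (Set.Icc (-b) b) =>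
    ∫ t, (t : ℝ) ^ k ∂(ν : Measure (Set.Icc (-b) b)) :=
  ProbabilityMeasure.continuous_integral_boundedContinuousFunction
    (BoundedContinuousFunction.mkOfCompact ⟨fun t : Set.Icc (-b) b => (t : ℝ) ^ k, by fun_prop⟩)

theorem closed_mv (b : ℝ) (n : ℕ) : IsClosed (Set.range (mv b n)) :=
  (isCompact_range (continuous_pi fun k : Fin n => cont_mom b k)).isClosed

theorem convex_mv (b : ℝ) (n : ℕ) : Convex ℝ (Set.range (mv b n)) := by
  rintro _ ⟨ν, rfl⟩ _ ⟨ν', rfl⟩ s t hs ht hst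
  have hi : ∀ (k : ℕ) (ρ : Measure (Set.Icc (-b) b)) [IsFiniteMeasure ρ],
      Integrable (fun t : Set.Icc (-b) b => (t : ℝ) ^ k) ρ := fun k ρ _ =>
    (BoundedContinuousFunction.mkOfCompact
      ⟨fun t : Set.Icc (-b) b => (t : ℝ) ^ k, by fun_prop⟩).integrable ρ
  refine ⟨⟨ENNReal.ofReal s • (ν : Measure _) + ENNReal.ofReal t • (ν' : Measure _), ⟨?_⟩⟩, ?_⟩
  · simp [← ENNReal.ofReal_add hs ht, hst]
  · funext k
    simp only [mv, ProbabilityMeasure.coe_mk, Pi.add_apply, Pi.smul_apply]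
    rw [integral_add_measure ((hi k _).smul_measure ENNReal.ofReal_ne_top)
      ((hi k _).smul_measure ENNReal.ofReal_ne_top), integral_smul_measure, integral_smul_measure,
      ENNReal.toReal_ofReal hs, ENNReal.toReal_ofReal ht]

theorem matrix_mv {ι : Type*} [Fintype ι] [DecidableEq ι] {M : Matrix ι ι ℝ} (hM : M.IsSymm)
    {b : ℝ} (hb : 0 ≤ b) (h : ∀ g, (M *ᵥ g) ⬝ᵥ (M *ᵥ g) ≤ b ^ 2 * (g ⬝ᵥ g)) (n : ℕ) (x : ι) :
    (fun k : Fin n => (M ^ (k : ℕ)) x x) ∈ Set.range (mv b n) := by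
  have hN : M.IsHermitian := by
    rw [IsHermitian, conjTranspose_eq_transpose_of_trivial]; exact hM
  set e := hN.eigenvalues with he
  set U : Matrix ι ι ℝ := (hN.eigenvectorUnitary : Matrix ι ι ℝ) with hU
  have hU1 : U * Uᵀ = 1 := by
    have := hN.eigenvectorUnitary.2.2
    rwa [star_eq_conjTranspose, conjTranspose_eq_transpose_of_trivial] at this
  have hU2 : Uᵀ * U = 1 := by
    have := hN.eigenvectorUnitary.2.1
    rwa [star_eq_conjTranspose, conjTranspose_eq_transpose_of_trivial] at this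
  have h1 : ∀ i, M *ᵥ (fun y => U y i) = e i • fun y => U y i := fun i => by
    simpa only [hU, IsHermitian.eigenvectorUnitary_apply] using hN.mulVec_eigenvectorBasis i
  have h2 : ∀ i, e i ∈ Set.Icc (-b) b := fun i => by
    have h3 := h fun y => U y i
    have h4 : (fun y => U y i) ⬝ᵥ (fun y => U y i) = 1 := by
      simpa [mul_apply, dotProduct] using congrFun (congrFun hU2 i) i
    rw [h1, smul_dotProduct, dotProduct_smul, h4] at h3
    exact abs_le.1 (abs_le_of_sq_le_sq (by simpa [sq] using h3) hb)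
  have h3 : ∀ k : ℕ, M ^ k * U = U * diagonal fun i => e i ^ k := fun k => by
    induction k with
    | zero => simp
    | succ k ih =>
      rw [pow_succ', Matrix.mul_assoc, ih, ← Matrix.mul_assoc]
      ext y i
      have := congrFun (h1 i) y
      simp only [mulVec, dotProduct, Pi.smul_apply, smul_eq_mul] at this
      rw [mul_diagonal, mul_diagonal, mul_apply, this]
      ring
  have h4 : (fun k : Fin n => (M ^ (k : ℕ)) x x) =
      ∑ i, (U x i * U x i) • fun k : Fin n => e i ^ (k : ℕ) := by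
    funext k
    rw [← Matrix.mul_one (M ^ (k : ℕ)), ← hU1, ← Matrix.mul_assoc, h3, mul_apply]
    simp only [mul_diagonal, transpose_apply, Finset.sum_apply, Pi.smul_apply, smul_eq_mul]
    exact Finset.sum_congr rfl fun i _ => by ring
  rw [h4]
  refine (convex_mv b n).sum_mem (fun i _ => mul_self_nonneg _) ?_ fun i _ =>
    ⟨⟨Measure.dirac ⟨e i, h2 i⟩, inferInstance⟩, funext fun k => by simp [mv]⟩
  simpa [mul_apply] using congrFun (congrFun hU1 x) x

theorem exists_of_mv {b : ℝ} (m : ℕ → ℝ) (h : ∀ n, (fun k : Fin n => m k) ∈ Set.range (mv b n)) :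
    ∃ μ : Measure ℝ, IsProbabilityMeasure μ ∧ μ (Set.Icc (-b) b)ᶜ = 0 ∧
      ∀ k, ∫ t, t ^ k ∂μ = m k := by
  have hc : ∀ n, IsClosed {ν | mv b n ν = fun k : Fin n => m k} := fun n =>
    isClosed_eq (continuous_pi fun k => cont_mom b k) continuous_const
  obtain ⟨ν, hν⟩ := IsCompact.nonempty_iInter_of_sequence_nonempty_isCompact_isClosed
    (fun n => {ν | mv b n ν = fun k : Fin n => m k})
    (fun n ν hν => funext fun k => congrFun hν k.castSucc) h (hc 0).isCompact hc
  refine ⟨(ν : Measure (Set.Icc (-b) b)).map Subtype.val, Measure.isProbabilityMeasure_map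
    measurable_subtype_coe.aemeasurable, ?_, fun k => ?_⟩
  · rw [Measure.map_apply measurable_subtype_coe measurableSet_Icc.compl]
    simp
  · rw [integral_map measurable_subtype_coe.aemeasurable (by fun_prop)]
    exact congrFun (Set.mem_iInter.1 hν (k + 1)) (Fin.last k)

theorem exists_spec (p : unitInterval) {f : ℕ → ℝ} {F B : ℝ} (hf : ∀ n, |f n| ≤ F)
    {Q : Measure (V d → ℝ)} [IsProbabilityMeasure Q] (hB : ∀ᵐ W ∂Q, ∀ x, |W x| ≤ B) :
    ∃ μ : Measure ℝ, IsProbabilityMeasure μ ∧ (∃ b : ℝ, μ (Set.Icc (-b) b)ᶜ = 0) ∧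
      ∀ k, ∫ t, t ^ k ∂μ = ∫ W, mom p f k 0 W ∂Q := by
  obtain ⟨μ, h1, h2, h3⟩ := exists_of_mv (b := 2 * d + |B| + |F|)
    (fun k => ∫ W, mom p f k 0 W ∂Q) fun n => by
      have i1 : ∀ k : Fin n, Integrable (fun W => mom p f k 0 W) Q := fun k => int_mom hf hB k 0
      have := (convex_mv (2 * d + |B| + |F|) n).integral_mem (closed_mv _ n) (μ := Q)
        (f := fun W (k : Fin n) => mom p f k 0 W) ?_ (integrable_pi_iff.2 i1)
      · convert this using 1
        exact funext fun k => (eval_integral i1 k).symm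
      filter_upwards [hB] with W hW
      have i2 : ∀ k : Fin n, Integrable (fun ω : Sym2 (V d) → Bool =>
          hN (op ω) (fun z n => W z + f n) k 0 0) (PM fun _ => p) := fun k =>
        (locF_hN _ k 0).integrable _
      have := (convex_mv (2 * d + |B| + |F|) n).integral_mem (closed_mv _ n) (μ := PM fun _ => p)
        (f := fun ω (k : Fin n) => hN (op ω) (fun z n => W z + f n) k 0 0)
        (Eventually.of_forall fun ω => ?_) (integrable_pi_iff.2 i2)
      · convert this using 1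
        exact funext fun k => (eval_integral i2 k).symm
      have := matrix_mv (sp_T_symm (box 0 n) (op ω) (fun z n => W z + f n) 0) (by positivity)
        (sp_T_bound (K := 2 * d + |B| + |F|) _ _ fun x m => by
          have := abs_add_le (W x) (f m)
          rw [abs_zero]
          linarith [hW x, hf m, le_abs_self B, le_abs_self F]) n ⟨0, self_mem_box _ _⟩
      convert this using 2 with k
      rw [sp_T, zero_smul, sub_zero, AU_pow _ _ _ _ _ _ (box_mono _ k.2.le)]
  exact ⟨μ, h1, ⟨_, h2⟩, h3⟩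

theorem ext_of_moments {μ ν : Measure ℝ} [IsProbabilityMeasure μ] [IsProbabilityMeasure ν]
    {b b' : ℝ} (h : μ (Set.Icc (-b) b)ᶜ = 0) (h' : ν (Set.Icc (-b') b')ᶜ = 0)
    (hm : ∀ k : ℕ, ∫ t, t ^ k ∂μ = ∫ t, t ^ k ∂ν) : μ = ν := by
  have h1 : μ (Set.Icc (-max b b') (max b b'))ᶜ = 0 := measure_mono_null (Set.compl_subset_compl.2
    (Set.Icc_subset_Icc (neg_le_neg (le_max_left _ _)) (le_max_left _ _))) h
  have h2 : ν (Set.Icc (-max b b') (max b b'))ᶜ = 0 := measure_mono_null (Set.compl_subset_compl.2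
    (Set.Icc_subset_Icc (neg_le_neg (le_max_right _ _)) (le_max_right _ _))) h'
  refine ext_of_forall_integral_eq_of_IsFiniteMeasure fun g => eq_of_forall_dist_le fun ε hε => ?_
  obtain ⟨P, hP⟩ := exists_polynomial_near_of_continuousOn (-max b b') (max b b') g
    g.continuous.continuousOn (ε / 2) (half_pos hε)
  have key : ∀ (ρ : Measure ℝ) [IsProbabilityMeasure ρ], ρ (Set.Icc (-max b b') (max b b'))ᶜ = 0 →
      |∫ t, P.eval t ∂ρ - ∫ t, g t ∂ρ| ≤ ε / 2 := fun ρ _ hρ => by
    rw [← integral_sub (sp_int_eval hρ P) (g.integrable ρ)]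
    have := norm_integral_le_of_norm_le_const (μ := ρ) (f := fun t => P.eval t - g t) (C := ε / 2)
      (by filter_upwards [mem_ae_iff.2 hρ] with t ht using (hP t ht).le)
    simpa using this
  have h3 : ∫ t, P.eval t ∂μ = ∫ t, P.eval t ∂ν := by
    simp only [Polynomial.eval_eq_sum_range]
    rw [integral_finsetSum _ fun i _ => (sp_int_pow h1 i).const_mul _,
      integral_finsetSum _ fun i _ => (sp_int_pow h2 i).const_mul _]
    exact Finset.sum_congr rfl fun i _ => by rw [integral_const_mul, integral_const_mul, hm]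
  have h4 := abs_le.1 (key μ h1)
  have h5 := abs_le.1 (key ν h2)
  rw [Real.dist_eq, abs_le]
  constructor <;> linarith [h4.1, h4.2, h5.1, h5.2]

end Exist

theorem final (d : ℕ) (hd : 2 ≤ d) (p : unitInterval) (hp : pc d < p) :
    ∃ c : ℝ, 0 < c ∧ ∀ (f : ℕ → ℝ) (Q : Measure ((Fin d → ℤ) → ℝ)) [IsProbabilityMeasure Q],
      (∀ a, Q.map (fun W x => W (x + a)) = Q) → (∃ B : ℝ, ∀ᵐ W ∂Q, ∀ x, |W x| ≤ B) →
      ∃ μ : Measure ℝ, (∀ ν, IsSpec d p f Q ν ↔ ν = μ) ∧
        ∀ S : Set ℝ, S.Countable → μ.real S ≤ 1 - c := by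
  obtain ⟨q, hq, hqp⟩ := exists_between hp
  have hθ : 0 < Pr (fun _ => q)
      {ω : V d × Fin d → Bool | {y | (fi_Gr ω).Reachable 0 y}.Infinite} :=
    ENNReal.toReal_pos (fun h => absurd (le_sSup (a := q) h) (not_le.2 hq)) (measure_ne_top _ _)
  obtain ⟨c, hc, h⟩ := dim_le hd hqp hθ (fi_perc q)
  refine ⟨c, hc, fun f Q _ hQ ⟨B, hB⟩ => ?_⟩
  obtain ⟨F, hF⟩ := ((Finset.range (2 * d + 1)).image fun k => |f k|).bddAbove
  have hF' : ∀ k, |f (min k (2 * d))| ≤ F := fun k => hF (Finset.mem_coe.2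
    (Finset.mem_image_of_mem _ (Finset.mem_range.2 (by omega))))
  obtain ⟨μ, _, ⟨b, hsupp⟩, hmom⟩ := exists_spec p hF' hB
  refine ⟨μ, fun ν => ⟨fun ⟨_, ⟨b', h1⟩, h2⟩ => ext_of_moments h1 hsupp fun k => ?_, ?_⟩,
    fun S hS => ?_⟩
  · simp only [h2, mom_eq, hmom]
  · rintro rfl
    exact ⟨‹_›, ⟨b, hsupp⟩, fun k => by simp only [mom_eq, hmom]⟩
  refine countable_le (fun S₀ => le_of_forall_pos_le_add fun ε hε => ?_) hS
  have hS₀ : (0 : ℝ) < 2 * S₀.card + 1 := by positivity
  obtain ⟨Λ, R, h3, h4, h5, h6⟩ := h (ε / (2 * S₀.card + 1)) (by positivity)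
  have h7 := spectral hsupp hF' hQ hB hmom h4 S₀ (h6 f (2 * d) B S₀)
  have h8 : (0 : ℝ) < Λ.card := by exact_mod_cast h3.card_pos
  rw [div_mul_eq_mul_div, le_div_iff₀ hS₀] at h5
  refine le_of_mul_le_mul_left ?_ h8
  nlinarith [(Nat.cast_nonneg R.card : (0 : ℝ) ≤ R.card)]

end Pool.Agent.P.MP_d74cc6_pr.H
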